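import Pool.Agent.N718.GU.Stm

set_option autoImplicit false

namespace Pool.Agent.N718.GU

open Finset

theorem COUNT_line (H : ℕ) (P m : ℤ) (h1 : 1 ≤ |P|) (h2 : |P| ≤ H) :
    (((Icc (-(H : ℤ)) H).filter (fun t => P ∣ m - t)).card : ℝ) * |(P : ℝ)| ≤ 4 * H := by
  have hset : (Icc (-(H : ℤ)) H).filter (fun t => P ∣ m - t) =
      (Ioc (-(H : ℤ) - 1) H).filter (fun t => t ≡ m [ZMOD |P|]) := by
    ext t
    simp only [mem_filter, mem_Icc, mem_Ioc]
    rw [Int.modEq_iff_dvd, abs_dvd]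
    constructor
    · rintro ⟨⟨a, b⟩, c⟩
      exact ⟨⟨by linarith, b⟩, c⟩
    · rintro ⟨⟨a, b⟩, c⟩
      exact ⟨⟨by linarith, b⟩, c⟩
  have hr : 0 < |P| := by linarith
  have hcard := Int.Ioc_filter_modEq_card (-(H : ℤ) - 1) H hr m
  have hrq : (0 : ℚ) < ((|P| : ℤ) : ℚ) := by exact_mod_cast hr
  have hH : (1 : ℚ) ≤ (H : ℚ) := by
    have : (1 : ℤ) ≤ (H : ℤ) := by linarith
    exact_mod_cast this
  have h2q : (((|P| : ℤ)) : ℚ) ≤ (H : ℚ) := by exact_mod_cast h2
  have key : ((((Icc (-(H : ℤ)) H).filter (fun t => P ∣ m - t)).card : ℚ)) * ((|P| : ℤ) : ℚ) ≤ 4 * H := by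
    rw [hset]
    have h3 : ((((Ioc (-(H : ℤ) - 1) H).filter (fun t => t ≡ m [ZMOD |P|])).card : ℤ) : ℚ) ≤
        (2 * H + 1) / ((|P| : ℤ) : ℚ) + 1 := by
      rw [hcard]
      push_cast
      rw [max_le_iff]
      constructor
      · have ha := Int.floor_le (((H : ℤ) - m) / ((|P| : ℤ) : ℚ) : ℚ)
        have hb := Int.lt_floor_add_one ((((-(H : ℤ) - 1 : ℤ) : ℚ) - m) / ((|P| : ℤ) : ℚ) : ℚ)
        have hc : (((H : ℤ) - m) / ((|P| : ℤ) : ℚ) : ℚ) - (((-(H : ℤ) - 1 : ℤ) : ℚ) - m) / ((|P| : ℤ) : ℚ) =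
            (2 * H + 1) / ((|P| : ℤ) : ℚ) := by
          rw [← sub_div]
          congr 1
          push_cast
          ring
        push_cast at ha hb hc ⊢
        linarith
      · positivity
    have h4 : ((((Ioc (-(H : ℤ) - 1) H).filter (fun t => t ≡ m [ZMOD |P|])).card : ℚ)) ≤
        (2 * H + 1) / ((|P| : ℤ) : ℚ) + 1 := by exact_mod_cast h3
    calc ((((Ioc (-(H : ℤ) - 1) H).filter (fun t => t ≡ m [ZMOD |P|])).card : ℚ)) * ((|P| : ℤ) : ℚ)
        ≤ ((2 * H + 1) / ((|P| : ℤ) : ℚ) + 1) * ((|P| : ℤ) : ℚ) := mul_le_mul_of_nonneg_right h4 hrq.le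
      _ = 2 * H + 1 + ((|P| : ℤ) : ℚ) := by
          rw [add_mul, div_mul_cancel₀ _ hrq.ne', one_mul]
      _ ≤ 4 * H := by linarith
  have key' : ((((Icc (-(H : ℤ)) H).filter (fun t => P ∣ m - t)).card : ℝ)) * ((|P| : ℤ) : ℝ) ≤ 4 * H := by
    exact_mod_cast key
  simpa using key'

theorem COUNT_ev (d : ℕ) (c : Fin (d + 2) → ℤ) (P : ℤ) : ev c P = c 0 + P * ev (fun i : Fin (d + 1) => c i.succ) P := by
  rw [ev, Fin.sum_univ_succ, ev, mul_sum]
  simp only [Fin.val_zero, pow_zero, mul_one, Fin.val_succ, pow_succ]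
  congr 1
  refine sum_congr rfl (fun i _ => ?_)
  ring

theorem COUNT_step (d H : ℕ) (P m : ℤ) :
    ((box (d + 1) H).filter (fun c => ev c P = m)).card ≤
      ∑ t ∈ (Icc (-(H : ℤ)) H).filter (fun t => P ∣ m - t),
        ((box d H).filter (fun c => P * ev c P = m - t)).card := by
  classical
  have hmaps : ∀ c ∈ (box (d + 1) H).filter (fun c => ev c P = m),
      c 0 ∈ (Icc (-(H : ℤ)) H).filter (fun t => P ∣ m - t) := by
    intro c hc
    rw [mem_filter, box, Fintype.mem_piFinset] at hc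
    rw [mem_filter]
    refine ⟨hc.1 0, ?_⟩
    rw [← hc.2, COUNT_ev]
    exact ⟨ev (fun i : Fin (d + 1) => c i.succ) P, by ring⟩
  rw [card_eq_sum_card_fiberwise hmaps]
  refine sum_le_sum (fun t _ => ?_)
  refine card_le_card_of_injOn (fun c => (fun i : Fin (d + 1) => c i.succ)) ?_ ?_
  · intro c hc
    simp only [coe_filter, mem_filter, box, Fintype.mem_piFinset, Set.mem_ofPred_eq] at hc ⊢
    obtain ⟨⟨h1, h2⟩, h3⟩ := hc
    refine ⟨fun i => h1 i.succ, ?_⟩
    rw [← h2, ← h3, COUNT_ev]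
    ring
  · intro c hc c' hc' hcc
    simp only [coe_filter, mem_filter, Set.mem_ofPred_eq] at hc hc'
    funext i
    refine Fin.cases ?_ (fun j => ?_) i
    · rw [hc.2, hc'.2]
    · exact congrFun hcc j

theorem t_COUNT : P_COUNT := by
  intro d H P h1 h2
  have hP : P ≠ 0 := by
    rintro rfl
    simp at h1
  have hPr : (0 : ℝ) < |(P : ℝ)| := by
    rw [abs_pos]
    exact_mod_cast hP
  induction d with
  | zero =>
    intro m
    rw [pow_zero, pow_zero, mul_one]
    have : ((box 0 H).filter (fun c => ev c P = m)).card ≤ 1 := by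
      rw [card_le_one]
      intro a ha b hb
      rw [mem_filter] at ha hb
      have h3 : ∀ c : Fin 1 → ℤ, ev c P = c 0 := by
        intro c
        rw [ev]
        simp
      have h4 : a 0 = b 0 := by rw [← h3 a, ← h3 b, ha.2, hb.2]
      funext i
      have hi : i = 0 := Fin.ext (by have := i.isLt; simp at this ⊢)
      rw [hi]
      exact h4
    exact_mod_cast this
  | succ d ih =>
    intro m
    have h3 := COUNT_step d H P m
    have h4 : ∀ t ∈ (Icc (-(H : ℤ)) H).filter (fun t => P ∣ m - t),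
        (((box d H).filter (fun c => P * ev c P = m - t)).card : ℝ) * |(P : ℝ)| ^ d ≤ (4 * (H : ℝ)) ^ d := by
      intro t ht
      rw [mem_filter] at ht
      obtain ⟨u, hu⟩ := ht.2
      have h5 : (box d H).filter (fun c => P * ev c P = m - t) = (box d H).filter (fun c => ev c P = u) := by
        refine filter_congr (fun c _ => ?_)
        rw [hu]
        constructor
        · intro h
          exact mul_left_cancel₀ hP h
        · intro h
          rw [h]
      rw [h5]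
      exact ih u
    have h5 : (((box (d + 1) H).filter (fun c => ev c P = m)).card : ℝ) ≤
        ∑ t ∈ (Icc (-(H : ℤ)) H).filter (fun t => P ∣ m - t),
        (((box d H).filter (fun c => P * ev c P = m - t)).card : ℝ) := by exact_mod_cast h3
    calc (((box (d + 1) H).filter (fun c => ev c P = m)).card : ℝ) * |(P : ℝ)| ^ (d + 1)
        ≤ (∑ t ∈ (Icc (-(H : ℤ)) H).filter (fun t => P ∣ m - t),
        (((box d H).filter (fun c => P * ev c P = m - t)).card : ℝ)) * |(P : ℝ)| ^ (d + 1) :=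
          mul_le_mul_of_nonneg_right h5 (by positivity)
      _ = (∑ t ∈ (Icc (-(H : ℤ)) H).filter (fun t => P ∣ m - t),
        (((box d H).filter (fun c => P * ev c P = m - t)).card : ℝ) * |(P : ℝ)| ^ d) * |(P : ℝ)| := by
          rw [pow_succ, ← mul_assoc, sum_mul]
      _ ≤ (∑ t ∈ (Icc (-(H : ℤ)) H).filter (fun t => P ∣ m - t), (4 * (H : ℝ)) ^ d) * |(P : ℝ)| :=
          mul_le_mul_of_nonneg_right (sum_le_sum h4) hPr.le
      _ = ((((Icc (-(H : ℤ)) H).filter (fun t => P ∣ m - t)).card : ℝ) * |(P : ℝ)|) * (4 * (H : ℝ)) ^ d := by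
          rw [sum_const, nsmul_eq_mul]
          ring
      _ ≤ (4 * (H : ℝ)) * (4 * (H : ℝ)) ^ d :=
          mul_le_mul_of_nonneg_right (COUNT_line H P m h1 h2) (by positivity)
      _ = (4 * (H : ℝ)) ^ (d + 1) := by ring

end Pool.Agent.N718.GU
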