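import Pool.Agent.N718.GU.Small

set_option autoImplicit false

/-!
GU/DIV: the values of a product of affine forms are rarely divisible by a large number (helper702)
-/

namespace Pool.Agent.N718.GU

open Finset

/-- a large number has a large prime power as an exact divisor -/
lemma div_primepow (s r : ℕ) (hr : s.factorial < r) :
    ∃ p e : ℕ, p.Prime ∧ p ^ e ∣ r ∧ s < p ^ e := by
  by_contra hcon
  push Not at hcon
  have hr0 : r ≠ 0 := by omega
  have hdvd : r ∣ s.factorial := by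
    rw [← Nat.factorization_prime_le_iff_dvd hr0 (Nat.factorial_ne_zero s)]
    intro p hp
    have h1 : p ^ r.factorization p ∣ r := Nat.ordProj_dvd r p
    have h2 := hcon p _ hp h1
    have h3 : p ^ r.factorization p ∣ s.factorial :=
      Nat.dvd_factorial (pow_pos hp.pos _) h2
    exact (hp.pow_dvd_iff_le_factorization (Nat.factorial_ne_zero s)).mp h3
  have := Nat.le_of_dvd (Nat.factorial_pos s) hdvd
  omega

/-- pigeonhole for prime powers dividing a product -/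
lemma div_pigeon (n p e f : ℕ) (hp : p.Prime) (a : Fin n → ℤ) (hf : n * (f - 1) < e)
    (h : ((p : ℤ)) ^ e ∣ ∏ j, a j) : ∃ j, ((p : ℤ)) ^ f ∣ a j := by
  by_contra hcon
  push Not at hcon
  have hpi : Prime (p : ℤ) := Nat.prime_iff_prime_int.mp hp
  rw [pow_dvd_iff_le_emultiplicity, Finset.emultiplicity_prod hpi] at h
  have h1 : ∀ j ∈ (Finset.univ : Finset (Fin n)), emultiplicity (p : ℤ) (a j) ≤ ((f - 1 : ℕ) : ℕ∞) := by
    intro j _
    have h2 : emultiplicity (p : ℤ) (a j) < (f : ℕ∞) := by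
      rw [emultiplicity_lt_iff_not_dvd]
      exact hcon j
    have hf0 : f ≠ 0 := by
      rintro rfl
      exact hcon j (by simp)
    obtain ⟨g, rfl⟩ := Nat.exists_eq_succ_of_ne_zero hf0
    simp only [Nat.succ_eq_add_one, Nat.add_sub_cancel]
    have : (((g + 1 : ℕ)) : ℕ∞) = (g : ℕ∞) + 1 := by push_cast; rfl
    rw [Nat.succ_eq_add_one, this] at h2
    exact ENat.lt_coe_add_one_iff.mp h2
  have h3 := h.trans (Finset.sum_le_card_nsmul _ _ _ h1)
  rw [Finset.card_univ, Fintype.card_fin, nsmul_eq_mul] at h3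
  have h4 : (e : ℕ∞) ≤ ((n * (f - 1) : ℕ) : ℕ∞) := by
    push_cast
    exact_mod_cast h3
  have h5 : e ≤ n * (f - 1) := by exact_mod_cast h4
  omega

/-- separated integers in an interval -/
lemma div_card_sep (T : Finset ℤ) (x : ℕ) (L : ℝ) (hL : 0 < L) (hT : T ⊆ Icc (-(x : ℤ)) x)
    (h : ∀ y ∈ T, ∀ y' ∈ T, y' < y → L ≤ ((y - y' : ℤ) : ℝ)) : (T.card : ℝ) ≤ 2 * x / L + 1 := by
  have hmaps : ∀ y ∈ T, ⌊((y + x : ℤ) : ℝ) / L⌋₊ ∈ range (⌊2 * (x : ℝ) / L⌋₊ + 1) := by
    intro y hy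
    rw [Finset.mem_range, Nat.lt_succ_iff]
    apply Nat.floor_mono
    have := (Finset.mem_Icc.mp (hT hy)).2
    have h2 : ((y + x : ℤ) : ℝ) ≤ 2 * x := by
      have : y + x ≤ 2 * (x : ℤ) := by omega
      exact_mod_cast this
    gcongr
  have hinj : Set.InjOn (fun y : ℤ => ⌊((y + x : ℤ) : ℝ) / L⌋₊) T := by
    have key : ∀ y ∈ T, ∀ y' ∈ T, y' < y →
        ⌊((y' + x : ℤ) : ℝ) / L⌋₊ ≠ ⌊((y + x : ℤ) : ℝ) / L⌋₊ := by
      intro y hy y' hy' hlt heq
      have h1 := h y hy y' hy' hlt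
      have h0 : (0 : ℝ) ≤ ((y' + x : ℤ) : ℝ) / L := by
        apply div_nonneg _ hL.le
        have := (Finset.mem_Icc.mp (hT hy')).1
        have : (0 : ℤ) ≤ y' + x := by omega
        exact_mod_cast this
      have h2 : ((y' + x : ℤ) : ℝ) / L + 1 ≤ ((y + x : ℤ) : ℝ) / L := by
        rw [div_add_one hL.ne', div_le_div_iff_of_pos_right hL]
        push_cast at h1 ⊢
        linarith
      have h3 : ⌊((y' + x : ℤ) : ℝ) / L + 1⌋₊ ≤ ⌊((y + x : ℤ) : ℝ) / L⌋₊ := Nat.floor_mono h2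
      rw [Nat.floor_add_one h0] at h3
      omega
    intro y hy y' hy' heq
    rcases lt_trichotomy y y' with hlt | h1 | hlt
    · exact absurd heq (key y' hy' y hy hlt)
    · exact h1
    · exact absurd heq.symm (key y hy y' hy' hlt)
  have hc := Finset.card_le_card_of_injOn _ hmaps hinj
  rw [Finset.card_range] at hc
  have h5 : (⌊2 * (x : ℝ) / L⌋₊ : ℝ) ≤ 2 * (x : ℝ) / L := Nat.floor_le (by positivity)
  have h6 : (T.card : ℝ) ≤ (⌊2 * (x : ℝ) / L⌋₊ : ℝ) + 1 := by exact_mod_cast hc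
  linarith

/-- one affine form -/
lemma div_one (D B x q : ℕ) (t : ℝ) (ht : (B : ℝ) < t) (htq : t ≤ q) (p : Fin (D + 1) → ℤ)
    (hB : ∀ i, |p i| ≤ B) :
    (((cube D x).filter (fun v => aff p v ≠ 0 ∧ (q : ℤ) ∣ aff p v)).card : ℝ) ≤
      (2 * (x : ℝ) + 1) ^ (D - 1) * (2 * x * B / t + 1) := by
  have hB0 : (0 : ℝ) ≤ B := Nat.cast_nonneg B
  have ht0 : 0 < t := lt_of_le_of_lt hB0 ht
  by_cases hc : ∃ i : Fin D, p i.succ ≠ 0
  · obtain ⟨i, hi⟩ := hc
    have hB1 : (1 : ℝ) ≤ B := by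
      have h1 := Int.one_le_abs hi
      have h2 := hB i.succ
      have : (1 : ℤ) ≤ B := h1.trans h2
      exact_mod_cast this
    apply small_fibre i
    intro w
    have h := div_card_sep ((Icc (-(x : ℤ)) x).filter (fun y =>
      aff p (Function.update w i y) ≠ 0 ∧ (q : ℤ) ∣ aff p (Function.update w i y))) x (t / B)
      (by positivity) (Finset.filter_subset _ _) ?_
    · have : 2 * (x : ℝ) / (t / B) = 2 * x * B / t := by field_simp
      rw [this] at h
      exact h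
    · intro y hy y' hy' hlt
      rw [Finset.mem_filter] at hy hy'
      have h1 := small_aff_update p w i y y'
      have h2 : (q : ℤ) ∣ p i.succ * (y - y') := by
        rw [← h1]; exact dvd_sub hy.2.2 hy'.2.2
      have h3 : p i.succ * (y - y') ≠ 0 := mul_ne_zero hi (by omega)
      have h4 : (q : ℤ) ≤ |p i.succ * (y - y')| := by
        apply Int.le_of_dvd (abs_pos.mpr h3)
        rwa [dvd_abs]
      rw [abs_mul, abs_of_pos (by omega : (0 : ℤ) < y - y')] at h4
      have h5 : (q : ℤ) ≤ B * (y - y') := by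
        refine h4.trans ?_
        have := hB i.succ
        have h6 : (0 : ℤ) ≤ y - y' := by omega
        nlinarith
      have h6 : (q : ℝ) ≤ B * ((y - y' : ℤ) : ℝ) := by exact_mod_cast h5
      rw [div_le_iff₀ (by linarith)]
      linarith
  · push Not at hc
    have hemp : (cube D x).filter (fun v => aff p v ≠ 0 ∧ (q : ℤ) ∣ aff p v) = ∅ := by
      rw [Finset.filter_eq_empty_iff]
      rintro v _ ⟨h1, h2⟩
      have h3 : aff p v = p 0 := by
        unfold aff
        simp [hc]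
      rw [h3] at h1 h2
      have h4 : (q : ℤ) ≤ |p 0| := by
        apply Int.le_of_dvd (abs_pos.mpr h1)
        rwa [dvd_abs]
      have h5 : (q : ℤ) ≤ B := h4.trans (hB 0)
      have h6 : (q : ℝ) ≤ B := by exact_mod_cast h5
      linarith
    rw [hemp]
    simp only [Finset.card_empty, Nat.cast_zero]
    positivity

theorem t_DIV : P_DIV := by
  intro D B n ε hε
  set t : ℕ := ⌈2 * (n : ℝ) * B / ε⌉₊ + B + 1 with ht
  refine ⟨(t ^ n).factorial, ⌈(n : ℝ) / ε⌉₊, ?_⟩
  intro x hx p hp0 hB r hr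
  obtain ⟨q₀, e, hq₀, hdvd, hlt⟩ := div_primepow _ _ hr
  -- trivial cases
  rcases Nat.eq_zero_or_pos n with rfl | hn
  · have hemp : (cube D x).filter (fun v => ∏ j, aff (p j) v ≠ 0 ∧
        (r : ℤ) ∣ ∏ j, aff (p j) v) = ∅ := by
      rw [Finset.filter_eq_empty_iff]
      rintro v _ ⟨_, h2⟩
      simp only [Finset.univ_eq_empty, Finset.prod_empty] at h2
      have h3 : r = 1 := by
        have := Int.natAbs_dvd_natAbs.mpr h2
        simpa using this
      have h4 := Nat.factorial_pos (t ^ 0)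
      omega
    rw [hemp]
    simp only [Finset.card_empty, Nat.cast_zero]
    positivity
  -- the exponent
  set f : ℕ := (e - 1) / n + 1 with hf
  have he1 : 1 ≤ e := by
    rcases Nat.eq_zero_or_pos e with rfl | h
    · rw [pow_zero] at hlt
      have : 1 ≤ t ^ n := Nat.one_le_pow _ _ (by omega)
      omega
    · exact h
  have hfe : n * (f - 1) < e := by
    have : n * ((e - 1) / n) ≤ e - 1 := Nat.mul_div_le _ _
    rw [hf, Nat.add_sub_cancel]
    omega
  have hfe2 : e ≤ n * f := by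
    have h1 : e - 1 < n * ((e - 1) / n + 1) := Nat.lt_mul_div_succ _ hn
    rw [hf]; omega
  have htq : t < q₀ ^ f := by
    have h1 : t ^ n < (q₀ ^ f) ^ n := by
      calc t ^ n < q₀ ^ e := hlt
        _ ≤ q₀ ^ (f * n) := Nat.pow_le_pow_right hq₀.pos (by rw [mul_comm]; exact hfe2)
        _ = (q₀ ^ f) ^ n := by rw [pow_mul]
    exact lt_of_pow_lt_pow_left₀ n (Nat.zero_le _) h1
  -- covering
  have hsub : (cube D x).filter (fun v => ∏ j, aff (p j) v ≠ 0 ∧ (r : ℤ) ∣ ∏ j, aff (p j) v) ⊆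
      (Finset.univ : Finset (Fin n)).biUnion (fun j => (cube D x).filter (fun v =>
        aff (p j) v ≠ 0 ∧ ((q₀ ^ f : ℕ) : ℤ) ∣ aff (p j) v)) := by
    intro v hv
    rw [Finset.mem_filter] at hv
    obtain ⟨hv1, hv2, hv3⟩ := hv
    have h1 : ((q₀ : ℤ)) ^ e ∣ ∏ j, aff (p j) v := by
      refine dvd_trans ?_ hv3
      exact_mod_cast hdvd
    obtain ⟨j, hj⟩ := div_pigeon n q₀ e f hq₀ (fun j => aff (p j) v) hfe h1
    rw [Finset.mem_biUnion]
    refine ⟨j, Finset.mem_univ j, ?_⟩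
    rw [Finset.mem_filter]
    refine ⟨hv1, ?_, ?_⟩
    · rw [Finset.prod_ne_zero_iff] at hv2
      exact hv2 j (Finset.mem_univ j)
    · push_cast
      exact hj
  have htB : (B : ℝ) < (t : ℝ) := by
    have : B < t := by omega
    exact_mod_cast this
  have htq' : (t : ℝ) ≤ ((q₀ ^ f : ℕ) : ℝ) := by exact_mod_cast htq.le
  have ht1 : 2 * (n : ℝ) * B / ε ≤ t := by
    calc 2 * (n : ℝ) * B / ε ≤ (⌈2 * (n : ℝ) * B / ε⌉₊ : ℝ) := Nat.le_ceil _
      _ ≤ t := by rw [ht]; push_cast; linarith [(Nat.cast_nonneg B : (0 : ℝ) ≤ B)]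
  have ht0 : (0 : ℝ) < t := lt_of_le_of_lt (Nat.cast_nonneg B) htB
  have hx1 : (n : ℝ) ≤ ε * x := by
    have h1 : (n : ℝ) / ε ≤ x := (Nat.le_ceil _).trans (by exact_mod_cast hx)
    rw [div_le_iff₀ hε] at h1
    linarith
  have hx0 : (0 : ℝ) ≤ x := Nat.cast_nonneg x
  have hmain : (((cube D x).filter (fun v => ∏ j, aff (p j) v ≠ 0 ∧
      (r : ℤ) ∣ ∏ j, aff (p j) v)).card : ℝ) ≤
      n * ((2 * (x : ℝ) + 1) ^ (D - 1) * (2 * x * B / t + 1)) := by
    calc (((cube D x).filter (fun v => ∏ j, aff (p j) v ≠ 0 ∧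
        (r : ℤ) ∣ ∏ j, aff (p j) v)).card : ℝ)
        ≤ (((Finset.univ : Finset (Fin n)).biUnion (fun j => (cube D x).filter (fun v =>
          aff (p j) v ≠ 0 ∧ ((q₀ ^ f : ℕ) : ℤ) ∣ aff (p j) v))).card : ℝ) := by
          exact_mod_cast Finset.card_le_card hsub
      _ ≤ ∑ j : Fin n, (((cube D x).filter (fun v =>
          aff (p j) v ≠ 0 ∧ ((q₀ ^ f : ℕ) : ℤ) ∣ aff (p j) v)).card : ℝ) := by
          exact_mod_cast Finset.card_biUnion_le
      _ ≤ ∑ j : Fin n, ((2 * (x : ℝ) + 1) ^ (D - 1) * (2 * x * B / t + 1)) := by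
          apply Finset.sum_le_sum
          intro j _
          exact div_one D B x (q₀ ^ f) t htB htq' (p j) (hB j)
      _ = n * ((2 * (x : ℝ) + 1) ^ (D - 1) * (2 * x * B / t + 1)) := by
          rw [Finset.sum_const, Finset.card_univ, Fintype.card_fin, nsmul_eq_mul]
  have hest : (n : ℝ) * (2 * x * B / t + 1) ≤ ε * (2 * (x : ℝ) + 1) := by
    have h1 : (n : ℝ) * (2 * x * B / t) ≤ ε * x := by
      rw [div_le_iff₀ hε] at ht1
      rw [mul_div_assoc', div_le_iff₀ ht0]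
      nlinarith
    nlinarith
  -- D = 0 is special
  rcases Nat.eq_zero_or_pos D with rfl | hD
  · -- all forms are constant
    have hemp : (cube 0 x).filter (fun v => ∏ j, aff (p j) v ≠ 0 ∧
        (r : ℤ) ∣ ∏ j, aff (p j) v) = ∅ := by
      rw [Finset.filter_eq_empty_iff]
      rintro v hv hv2
      have h1 := hsub (Finset.mem_filter.mpr ⟨hv, hv2⟩)
      rw [Finset.mem_biUnion] at h1
      obtain ⟨j, _, hj⟩ := h1
      rw [Finset.mem_filter] at hj
      obtain ⟨_, h2, h3⟩ := hj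
      have h4 : aff (p j) v = p j 0 := by
        unfold aff; simp
      rw [h4] at h2 h3
      have h5 : ((q₀ ^ f : ℕ) : ℤ) ≤ |p j 0| := by
        apply Int.le_of_dvd (abs_pos.mpr h2)
        rwa [dvd_abs]
      have h6 : ((q₀ ^ f : ℕ) : ℤ) ≤ B := h5.trans (hB j 0)
      have h7 : q₀ ^ f ≤ B := by exact_mod_cast h6
      omega
    rw [hemp]
    simp only [Finset.card_empty, Nat.cast_zero]
    positivity
  · have hD' : D = (D - 1) + 1 := by omega
    calc (((cube D x).filter (fun v => ∏ j, aff (p j) v ≠ 0 ∧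
        (r : ℤ) ∣ ∏ j, aff (p j) v)).card : ℝ)
        ≤ n * ((2 * (x : ℝ) + 1) ^ (D - 1) * (2 * x * B / t + 1)) := hmain
      _ = (2 * (x : ℝ) + 1) ^ (D - 1) * (n * (2 * x * B / t + 1)) := by ring
      _ ≤ (2 * (x : ℝ) + 1) ^ (D - 1) * (ε * (2 * (x : ℝ) + 1)) := by gcongr
      _ = ε * (2 * (x : ℝ) + 1) ^ ((D - 1) + 1) := by ring
      _ = ε * (2 * (x : ℝ) + 1) ^ D := by rw [← hD']

end Pool.Agent.N718.GU
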