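import Pool.Agent.N718.GU.Stm

set_option autoImplicit false

namespace Pool.Agent.N718.GU

open Finset

theorem FAREY_gen (g : ℝ → ℝ) (q : ℕ) (hq : 1 ≤ q) :
    ∑ b ∈ range q, g ((b : ℝ) / q) = ∑ r ∈ q.divisors, ∑ a ∈ red r, g ((a : ℝ) / r) := by
  rw [Finset.sum_sigma']
  refine Finset.sum_bij' (i := fun b _ => (⟨q / Nat.gcd b q, b / Nat.gcd b q⟩ : (_ : ℕ) × ℕ))
    (j := fun x _ => x.2 * (q / x.1)) ?_ ?_ ?_ ?_ ?_
  · intro b hb
    rw [mem_range] at hb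
    have hg : 0 < Nat.gcd b q := Nat.gcd_pos_of_pos_right _ (by omega)
    have hgq : Nat.gcd b q ∣ q := Nat.gcd_dvd_right _ _
    have hgb : Nat.gcd b q ∣ b := Nat.gcd_dvd_left _ _
    simp only [mem_sigma, Nat.mem_divisors, red, mem_filter, mem_range]
    refine ⟨⟨Nat.div_dvd_of_dvd hgq, by omega⟩, ?_, ?_⟩
    · exact Nat.div_lt_div_of_lt_of_dvd hgq hb
    · exact Nat.coprime_div_gcd_div_gcd hg
  · intro x hx
    simp only [mem_sigma, Nat.mem_divisors, red, mem_filter, mem_range] at hx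
    obtain ⟨⟨h1, h2⟩, h3, h4⟩ := hx
    rw [mem_range]
    have hr : 0 < x.1 := by omega
    have hd : 0 < q / x.1 := Nat.div_pos (Nat.le_of_dvd (by omega) h1) hr
    calc x.2 * (q / x.1) < x.1 * (q / x.1) := Nat.mul_lt_mul_of_pos_right h3 hd
      _ = q := Nat.mul_div_cancel' h1
  · intro b hb
    rw [mem_range] at hb
    have hg : 0 < Nat.gcd b q := Nat.gcd_pos_of_pos_right _ (by omega)
    have hgq : Nat.gcd b q ∣ q := Nat.gcd_dvd_right _ _
    have hgb : Nat.gcd b q ∣ b := Nat.gcd_dvd_left _ _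
    show b / Nat.gcd b q * (q / (q / Nat.gcd b q)) = b
    rw [Nat.div_div_self hgq (by omega)]
    exact Nat.div_mul_cancel hgb
  · intro x hx
    simp only [mem_sigma, Nat.mem_divisors, red, mem_filter, mem_range] at hx
    obtain ⟨⟨h1, h2⟩, h3, h4⟩ := hx
    have hr : 0 < x.1 := by omega
    have hd : 0 < q / x.1 := Nat.div_pos (Nat.le_of_dvd (by omega) h1) hr
    have hgcd : Nat.gcd (x.2 * (q / x.1)) q = q / x.1 := by
      calc Nat.gcd (x.2 * (q / x.1)) q = Nat.gcd (x.2 * (q / x.1)) (x.1 * (q / x.1)) := by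
            rw [Nat.mul_div_cancel' h1]
        _ = q / x.1 := by rw [Nat.gcd_mul_right, h4, one_mul]
    show (⟨q / Nat.gcd (x.2 * (q / x.1)) q, x.2 * (q / x.1) / Nat.gcd (x.2 * (q / x.1)) q⟩ : (_ : ℕ) × ℕ) = x
    rw [hgcd, Nat.div_div_self h1 h2, Nat.mul_div_cancel _ hd]
  · intro b hb
    rw [mem_range] at hb
    have hg : 0 < Nat.gcd b q := Nat.gcd_pos_of_pos_right _ (by omega)
    have hgq : Nat.gcd b q ∣ q := Nat.gcd_dvd_right _ _
    have hgb : Nat.gcd b q ∣ b := Nat.gcd_dvd_left _ _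
    show g ((b : ℝ) / q) = g (((b / Nat.gcd b q : ℕ) : ℝ) / ((q / Nat.gcd b q : ℕ) : ℝ))
    have hg' : ((Nat.gcd b q : ℕ) : ℝ) ≠ 0 := by
      exact_mod_cast hg.ne'
    rw [Nat.cast_div hgb hg', Nat.cast_div hgq hg', div_div_div_cancel_right₀ hg']

theorem t_FAREY : P_FAREY := by
  intro F Y q z hq
  exact FAREY_gen (fun t => ‖S F Y z t‖ ^ 2) q hq

end Pool.Agent.N718.GU
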