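import Pool.Agent.N718.GU.GP4

set_option autoImplicit false

/-!
Assembly: small Gowers norms for almost all polynomials.
-/

namespace Pool.Agent.N718.GU

open Finset

/-- the product `w(n) F₀(f(a₀ n + b₀)) ∏ F_i(f(a_i n + b_i))` -/
noncomputable def gfun {d k : ℕ} (F₀ : ℤ → ℝ) (w : ℤ → ℝ) (F : Fin k → ℤ → ℝ) (a b : Fin (k + 1) → ℤ)
    (c : Fin (d + 1) → ℤ) (n : ℤ) : ℝ :=
  w n * F₀ (ev c (a 0 * n + b 0)) * ∏ i : Fin k, F i (ev c (a i.succ * n + b i.succ))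

/-- the affine form `a_i (n + ∑_{l ∈ ω} h_l) + b_i` -/
noncomputable def FA_form {s : ℕ} (a b : ℤ) (ω : Finset (Fin s)) : Fin (s + 1 + 1) → ℤ :=
  Fin.cons b (Fin.cons a (fun l => if l ∈ ω then a else 0))

lemma FA_aff {s : ℕ} (a b : ℤ) (ω : Finset (Fin s)) (v : Fin (s + 1) → ℤ) :
    aff (FA_form a b ω) v = a * pt (v 0) (fun l => v l.succ) ω + b := by
  unfold aff FA_form pt
  rw [Fin.cons_zero]
  simp only [Fin.cons_succ]
  rw [Fin.sum_univ_succ]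
  simp only [Fin.cons_zero, Fin.cons_succ, ite_mul, zero_mul]
  rw [← sum_filter]
  have : (univ : Finset (Fin s)).filter (fun l => l ∈ ω) = ω := by ext; simp
  rw [this, ← mul_sum]
  ring

lemma FA_abs {s B : ℕ} {a b : ℤ} (ha : |a| ≤ B) (hb : |b| ≤ B) (ω : Finset (Fin s)) (i : Fin (s + 1 + 1)) :
    |FA_form a b ω i| ≤ B := by
  unfold FA_form
  refine Fin.cases ?_ (fun j => ?_) i
  · rw [Fin.cons_zero]; exact hb
  · rw [Fin.cons_succ]
    refine Fin.cases ?_ (fun l => ?_) j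
    · rw [Fin.cons_zero]; exact ha
    · rw [Fin.cons_succ]
      split_ifs
      · exact ha
      · simp

lemma FA_ne {s : ℕ} {a b a₀ b₀ : ℤ} (ha : a ≠ 0) {ω : Finset (Fin s)} (h : ω ≠ ∅ ∨ (a, b) ≠ (a₀, b₀)) :
    FA_form a b ω ≠ FA_form a₀ b₀ (∅ : Finset (Fin s)) := by
  intro he
  by_cases hω : ω = ∅
  · rcases h with h | h
    · exact h hω
    · apply h
      have h0 := congrFun he 0
      have h1 := congrFun he (Fin.succ 0)
      unfold FA_form at h0 h1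
      rw [Fin.cons_zero, Fin.cons_zero] at h0
      rw [Fin.cons_succ, Fin.cons_succ, Fin.cons_zero, Fin.cons_zero] at h1
      rw [h0, h1]
  · obtain ⟨l, hl⟩ := Finset.nonempty_iff_ne_empty.mpr hω
    have h1 := congrFun he l.succ.succ
    unfold FA_form at h1
    rw [Fin.cons_succ, Fin.cons_succ, Fin.cons_succ, Fin.cons_succ, if_pos hl, if_neg (notMem_empty l)] at h1
    exact ha h1

/-- the mean value of the Gowers norm over the box -/
lemma FA_mean (hGP : P_GP) {F₀ : ℤ → ℝ} (hF₀ : ∀ n, |F₀ n| ≤ 1) (hU : Unif (fun m => (F₀ m : ℂ))) (k s B d : ℕ)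
    (hd : (k + 1) * 2 ^ s ≤ d + 1) (ε : ℝ) (hε : 0 < ε) : ∃ x₀ : ℕ, ∀ x : ℕ, x₀ ≤ x → ∀ H : ℕ,
    x ^ (3 * ((k + 1) * 2 ^ s)) ≤ H → ∀ (w : ℤ → ℝ) (F : Fin k → ℤ → ℝ), (∀ n, |w n| ≤ 1) → (∀ i n, |F i n| ≤ 1) →
    ∀ a b : Fin (k + 1) → ℤ, (∀ i, a i ≠ 0) → (∀ i, |a i| ≤ B) → (∀ i, |b i| ≤ B) →
      (∀ i : Fin k, (a i.succ, b i.succ) ≠ (a 0, b 0)) →
      ∑ c ∈ box d H, gowers s x (gfun F₀ w F a b c) ≤ ε * (2 * (x : ℝ) + 1) ^ (s + 1) * (2 * (H : ℝ) + 1) ^ (d + 1) := by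
  classical
  obtain ⟨m, hm⟩ : ∃ m, m + 1 = (k + 1) * 2 ^ s := ⟨(k + 1) * 2 ^ s - 1, by
    have : 1 ≤ (k + 1) * 2 ^ s := Nat.one_le_iff_ne_zero.mpr (by positivity)
    omega⟩
  obtain ⟨x₀, h0⟩ := hGP (fun m => (F₀ m : ℂ)) (fun n => by rw [Complex.norm_real]; exact hF₀ n) hU m (s + 1) B d (by omega) ε hε
  refine ⟨x₀, fun x hx H hH w F hw hF a b ha haB hbB hab => ?_⟩
  -- the points
  obtain ⟨ee⟩ : Nonempty (Fin m ≃ {y : Fin (k + 1) × Finset (Fin s) // y ≠ (0, ∅)}) := by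
    refine ⟨(Fintype.equivFinOfCardEq ?_).symm⟩
    have h1 : Fintype.card {y : Fin (k + 1) × Finset (Fin s) // y ≠ (0, ∅)} = Fintype.card (Fin (k + 1) × Finset (Fin s)) - 1 := by
      rw [Fintype.card_subtype_compl]
      simp
    rw [h1, Fintype.card_prod, Fintype.card_fin, Fintype.card_finset, Fintype.card_fin]
    omega
  obtain ⟨T, hT⟩ : ∃ T : Fin (k + 1) → ℤ → ℝ, ∀ i, T i = Fin.cons (α := fun _ => ℤ → ℝ) F₀ F i := ⟨_, fun _ => rfl⟩
  have hT1 : ∀ i n, |T i n| ≤ 1 := by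
    intro i n
    rw [hT]
    refine Fin.cases ?_ (fun j => ?_) i
    · rw [Fin.cons_zero]; exact hF₀ n
    · rw [Fin.cons_succ]; exact hF j n
  have hg : ∀ (c : Fin (d + 1) → ℤ) (n : ℤ), gfun F₀ w F a b c n = w n * ∏ i : Fin (k + 1), T i (ev c (a i * n + b i)) := by
    intro c n
    unfold gfun
    rw [Fin.prod_univ_succ]
    simp only [hT, Fin.cons_zero, Fin.cons_succ]
    ring
  obtain ⟨p, hp⟩ : ∃ p : Fin m → Fin (s + 1 + 1) → ℤ, ∀ j, p j = FA_form (a (ee j).1.1) (b (ee j).1.1) (ee j).1.2 := ⟨_, fun _ => rfl⟩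
  obtain ⟨G, hG⟩ : ∃ G : (Fin (s + 1) → ℤ) → Fin m → ℤ → ℂ, ∀ v j n, G v j n = (T (ee j).1.1 n : ℂ) := ⟨_, fun _ _ _ => rfl⟩
  have key := h0 x hx H (by rw [hm]; exact hH) (FA_form (a 0) (b 0) ∅) p (FA_abs (haB 0) (hbB 0) ∅)
    (fun j i => by rw [hp]; exact FA_abs (haB _) (hbB _) _ i)
    ⟨0, by
      unfold FA_form
      rw [Fin.cons_succ, Fin.cons_zero]
      exact ha 0⟩
    (fun j => by
      rw [hp]
      apply FA_ne (ha _)
      have h1 := (ee j).2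
      by_cases hω : (ee j).1.2 = ∅
      · right
        have h2 : (ee j).1.1 ≠ 0 := by
          intro h3
          exact h1 (Prod.ext h3 hω)
        obtain ⟨i, hi⟩ := Fin.exists_succ_eq.mpr h2
        rw [← hi]
        exact hab i
      · exact Or.inl hω)
    G (fun v j n => by rw [hG, Complex.norm_real]; exact hT1 _ _)
  refine le_trans ?_ key
  -- the weights and the cut-offs
  obtain ⟨u, hu⟩ : ∃ u : (Fin (s + 1) → ℤ) → ℝ, ∀ v, u v = ∏ ω : Finset (Fin s),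
      if 1 ≤ pt (v 0) (fun l => v l.succ) ω ∧ pt (v 0) (fun l => v l.succ) ω ≤ x then w (pt (v 0) (fun l => v l.succ) ω) else 0 :=
    ⟨_, fun _ => rfl⟩
  have hu1 : ∀ v, |u v| ≤ 1 := by
    intro v
    rw [hu, abs_prod]
    refine prod_le_one (fun _ _ => abs_nonneg _) fun ω _ => ?_
    split_ifs
    · exact hw _
    · simp
  have hterm : ∀ (c : Fin (d + 1) → ℤ) (v : Fin (s + 1) → ℤ),
      (∏ ω : Finset (Fin s), if 1 ≤ pt (v 0) (fun l => v l.succ) ω ∧ pt (v 0) (fun l => v l.succ) ω ≤ x then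
        gfun F₀ w F a b c (pt (v 0) (fun l => v l.succ) ω) else 0) =
      u v * (F₀ (ev c (aff (FA_form (a 0) (b 0) ∅) v)) * ∏ j, T (ee j).1.1 (ev c (aff (p j) v))) := by
    intro c v
    have e1 : ∀ ω : Finset (Fin s), (if 1 ≤ pt (v 0) (fun l => v l.succ) ω ∧ pt (v 0) (fun l => v l.succ) ω ≤ x then
        gfun F₀ w F a b c (pt (v 0) (fun l => v l.succ) ω) else 0) =
        (if 1 ≤ pt (v 0) (fun l => v l.succ) ω ∧ pt (v 0) (fun l => v l.succ) ω ≤ x then w (pt (v 0) (fun l => v l.succ) ω) else 0) *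
        ∏ i : Fin (k + 1), T i (ev c (aff (FA_form (a i) (b i) ω) v)) := by
      intro ω
      split_ifs
      · rw [hg]
        congr 1
        exact prod_congr rfl fun i _ => by rw [FA_aff]
      · rw [zero_mul]
    rw [prod_congr rfl fun ω _ => e1 ω, prod_mul_distrib, ← hu]
    congr 1
    obtain ⟨TT, hTT⟩ : ∃ TT : Fin (k + 1) × Finset (Fin s) → ℝ, ∀ y, TT y = T y.1 (ev c (aff (FA_form (a y.1) (b y.1) y.2) v)) :=
      ⟨_, fun _ => rfl⟩
    have e2 : ∏ ω : Finset (Fin s), ∏ i : Fin (k + 1), T i (ev c (aff (FA_form (a i) (b i) ω) v)) = ∏ y, TT y := by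
      rw [Fintype.prod_prod_type_right]
      exact prod_congr rfl fun ω _ => prod_congr rfl fun i _ => (hTT (i, ω)).symm
    have e3 : ∏ y, TT y = TT (0, ∅) * ∏ y : {y : Fin (k + 1) × Finset (Fin s) // y ≠ (0, ∅)}, TT y.1 := by
      rw [← Fintype.prod_subtype_mul_prod_subtype (fun y => y = ((0, ∅) : Fin (k + 1) × Finset (Fin s))) TT]
      congr 1
      rw [← prod_subtype {((0, ∅) : Fin (k + 1) × Finset (Fin s))} (fun y => by simp)]
      simp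
    have e4 : ∏ y : {y : Fin (k + 1) × Finset (Fin s) // y ≠ (0, ∅)}, TT y.1 = ∏ j, TT (ee j).1 :=
      (Equiv.prod_comp ee (fun y => TT y.1)).symm
    rw [e2, e3, e4, hTT]
    have e5 : T 0 = F₀ := by rw [hT]; rfl
    rw [e5]
    congr 1
    refine prod_congr rfl fun j _ => ?_
    rw [hTT, hp]
  have hsum : ∀ v : Fin (s + 1) → ℤ, ∑ c ∈ box d H, (∏ ω : Finset (Fin s),
      if 1 ≤ pt (v 0) (fun l => v l.succ) ω ∧ pt (v 0) (fun l => v l.succ) ω ≤ x then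
        gfun F₀ w F a b c (pt (v 0) (fun l => v l.succ) ω) else 0) ≤
      ‖∑ c ∈ box d H, (F₀ (ev c (aff (FA_form (a 0) (b 0) ∅) v)) : ℂ) * ∏ j, G v j (ev c (aff (p j) v))‖ := by
    intro v
    have e1 : ∑ c ∈ box d H, (F₀ (ev c (aff (FA_form (a 0) (b 0) ∅) v)) : ℂ) * ∏ j, G v j (ev c (aff (p j) v)) =
        ((∑ c ∈ box d H, F₀ (ev c (aff (FA_form (a 0) (b 0) ∅) v)) * ∏ j, T (ee j).1.1 (ev c (aff (p j) v)) : ℝ) : ℂ) := by
      push_cast
      refine sum_congr rfl fun c _ => ?_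
      congr 1
      exact prod_congr rfl fun j _ => hG _ _ _
    rw [e1, Complex.norm_real, Real.norm_eq_abs, sum_congr rfl fun c _ => hterm c v, ← mul_sum]
    refine (le_abs_self _).trans ?_
    rw [abs_mul]
    exact mul_le_of_le_one_left (abs_nonneg _) (hu1 v)
  -- the sum over the cube
  unfold gowers
  have hcast : ∀ h : Fin s → ℤ, ∀ n : ℤ, (fun l => (Fin.cons (α := fun _ => ℤ) n h : Fin (s + 1) → ℤ) l.succ) = h := by
    intro h n
    funext l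
    rw [Fin.cons_succ]
  obtain ⟨NN, hNN⟩ : ∃ NN : (Fin (s + 1) → ℤ) → ℝ, ∀ v, NN v = ‖∑ c ∈ box d H, (F₀ (ev c (aff (FA_form (a 0) (b 0) ∅) v)) : ℂ) *
      ∏ j, G v j (ev c (aff (p j) v))‖ := ⟨_, fun _ => rfl⟩
  have hNN0 : ∀ v, 0 ≤ NN v := fun v => by rw [hNN]; exact norm_nonneg _
  have hstep1 : ∀ h ∈ Fintype.piFinset (fun _ : Fin s => Icc (-(x : ℤ)) x), ∀ n ∈ Icc (1 : ℤ) x,
      ∑ c ∈ box d H, (∏ ω : Finset (Fin s), if 1 ≤ pt n h ω ∧ pt n h ω ≤ x then gfun F₀ w F a b c (pt n h ω) else 0) ≤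
      NN (Fin.cons (α := fun _ => ℤ) n h) := by
    intro h _ n _
    have h1 := hsum (Fin.cons (α := fun _ => ℤ) n h)
    rw [← hNN] at h1
    refine le_trans (le_of_eq ?_) h1
    refine sum_congr rfl fun c _ => prod_congr rfl fun ω _ => ?_
    rw [hcast, Fin.cons_zero]
  have hstep2 : ∑ c ∈ box d H, ∑ h ∈ Fintype.piFinset (fun _ : Fin s => Icc (-(x : ℤ)) x), ∑ n ∈ Icc (1 : ℤ) x,
      (∏ ω : Finset (Fin s), if 1 ≤ pt n h ω ∧ pt n h ω ≤ x then gfun F₀ w F a b c (pt n h ω) else 0) =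
      ∑ h ∈ Fintype.piFinset (fun _ : Fin s => Icc (-(x : ℤ)) x), ∑ n ∈ Icc (1 : ℤ) x, ∑ c ∈ box d H,
      (∏ ω : Finset (Fin s), if 1 ≤ pt n h ω ∧ pt n h ω ≤ x then gfun F₀ w F a b c (pt n h ω) else 0) := by
    rw [sum_comm]
    exact sum_congr rfl fun h _ => sum_comm
  have hstep3 : ∑ h ∈ Fintype.piFinset (fun _ : Fin s => Icc (-(x : ℤ)) x), ∑ n ∈ Icc (1 : ℤ) x,
      NN (Fin.cons (α := fun _ => ℤ) n h) ≤ ∑ v ∈ cube (s + 1) x, NN v := by
    rw [← sum_product' (f := fun h n => NN (Fin.cons (α := fun _ => ℤ) n h))]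
    have hinj : Set.InjOn (fun y : (Fin s → ℤ) × ℤ => (Fin.cons (α := fun _ => ℤ) y.2 y.1 : Fin (s + 1) → ℤ))
        (Fintype.piFinset (fun _ : Fin s => Icc (-(x : ℤ)) x) ×ˢ Icc (1 : ℤ) x : Finset ((Fin s → ℤ) × ℤ)) := by
      rintro ⟨h, n⟩ _ ⟨h', n'⟩ _ he
      have h1 := Fin.cons_injective2 he
      exact Prod.ext h1.2 h1.1
    rw [← sum_image (f := NN) (g := fun y : (Fin s → ℤ) × ℤ => (Fin.cons (α := fun _ => ℤ) y.2 y.1 : Fin (s + 1) → ℤ)) hinj]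
    apply sum_le_sum_of_subset_of_nonneg
    · intro v hv
      rw [mem_image] at hv
      obtain ⟨⟨h, n⟩, hy, rfl⟩ := hv
      rw [mem_product, Fintype.mem_piFinset, mem_Icc] at hy
      unfold cube
      rw [Fintype.mem_piFinset]
      intro l
      refine Fin.cases ?_ (fun l => ?_) l
      · rw [Fin.cons_zero, mem_Icc]
        have := hy.2
        simp only at this
        omega
      · rw [Fin.cons_succ]
        exact hy.1 l
    · intro v _ _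
      exact hNN0 v
  have hstep4 : ∑ v ∈ cube (s + 1) x, NN v = ∑ v ∈ cube (s + 1) x, ‖∑ c ∈ box d H,
      (F₀ (ev c (aff (FA_form (a 0) (b 0) ∅) v)) : ℂ) * ∏ j, G v j (ev c (aff (p j) v))‖ := sum_congr rfl fun v _ => hNN v
  rw [← hstep4]
  calc _ = _ := hstep2
    _ ≤ ∑ h ∈ Fintype.piFinset (fun _ : Fin s => Icc (-(x : ℤ)) x), ∑ n ∈ Icc (1 : ℤ) x,
        NN (Fin.cons (α := fun _ => ℤ) n h) := sum_le_sum fun h hh => sum_le_sum fun n hn => hstep1 h hh n hn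
    _ ≤ _ := hstep3

open Classical in
/-- **small Gowers norms for almost all polynomials** -/
theorem FA_main (hGP : P_GP) (hNN : P_NONNEG) {F₀ : ℤ → ℝ} (hF₀ : ∀ n, |F₀ n| ≤ 1) (hU : Unif (fun m => (F₀ m : ℂ)))
    (k s B d : ℕ) (hs : 1 ≤ s) (hd : (k + 1) * 2 ^ s ≤ d + 1) (ε : ℝ) (hε : 0 < ε) : ∃ x₀ : ℕ, ∀ x : ℕ, x₀ ≤ x → ∀ H : ℕ,
    x ^ (3 * ((k + 1) * 2 ^ s)) ≤ H → ∀ (w : ℤ → ℝ) (F : Fin k → ℤ → ℝ), (∀ n, |w n| ≤ 1) → (∀ i n, |F i n| ≤ 1) →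
    ∃ Bad ⊆ box d H, (Bad.card : ℝ) ≤ ε * (box d H).card ∧ ∀ c ∈ box d H, c ∉ Bad →
      ∀ a b : Fin (k + 1) → ℤ, (∀ i, a i ≠ 0) → (∀ i, |a i| ≤ B) → (∀ i, |b i| ≤ B) →
        (∀ i : Fin k, (a i.succ, b i.succ) ≠ (a 0, b 0)) → gowers s x (gfun F₀ w F a b c) ≤ ε * (x : ℝ) ^ (s + 1) := by
  obtain ⟨AB, hAB⟩ : ∃ AB : Finset ((Fin (k + 1) → ℤ) × (Fin (k + 1) → ℤ)),
      AB = ((Fintype.piFinset (fun _ => Icc (-(B : ℤ)) B) ×ˢ Fintype.piFinset (fun _ => Icc (-(B : ℤ)) B)).filter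
        (fun y => (∀ i, y.1 i ≠ 0) ∧ ∀ i : Fin k, (y.1 i.succ, y.2 i.succ) ≠ (y.1 0, y.2 0))) := ⟨_, rfl⟩
  obtain ⟨ε₁, hε₁⟩ : ∃ ε₁ : ℝ, ε₁ = ε ^ 2 / (3 ^ (s + 1) * (AB.card + 1)) := ⟨_, rfl⟩
  have hε₁0 : 0 < ε₁ := by rw [hε₁]; positivity
  obtain ⟨x₀, h0⟩ := FA_mean hGP hF₀ hU k s B d hd ε₁ hε₁0
  refine ⟨x₀ + 1, fun x hx H hH w F hw hF => ?_⟩
  have hx1 : (1:ℝ) ≤ x := by exact_mod_cast (show 1 ≤ x by omega)
  refine ⟨AB.biUnion (fun y => (box d H).filter (fun c => ε * (x : ℝ) ^ (s + 1) < gowers s x (gfun F₀ w F y.1 y.2 c))), ?_, ?_, ?_⟩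
  · intro c hc
    rw [mem_biUnion] at hc
    obtain ⟨y, _, hy⟩ := hc
    exact (mem_filter.mp hy).1
  · have h1 : ∀ y ∈ AB, (((box d H).filter (fun c => ε * (x : ℝ) ^ (s + 1) < gowers s x (gfun F₀ w F y.1 y.2 c))).card : ℝ) ≤
        ε / (AB.card + 1) * (box d H).card := by
      intro y hy
      rw [hAB, mem_filter, mem_product, Fintype.mem_piFinset, Fintype.mem_piFinset] at hy
      have h2 := h0 x (by omega) H hH w F hw hF y.1 y.2 hy.2.1 (fun i => by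
        have := hy.1.1 i
        rw [mem_Icc] at this
        rw [abs_le]
        exact this) (fun i => by
        have := hy.1.2 i
        rw [mem_Icc] at this
        rw [abs_le]
        exact this) hy.2.2
      obtain ⟨Bd, hBd⟩ : ∃ Bd, Bd = (box d H).filter (fun c => ε * (x : ℝ) ^ (s + 1) < gowers s x (gfun F₀ w F y.1 y.2 c)) :=
        ⟨_, rfl⟩
      rw [← hBd]
      have h3 : (Bd.card : ℝ) * (ε * (x : ℝ) ^ (s + 1)) ≤ ∑ c ∈ box d H, gowers s x (gfun F₀ w F y.1 y.2 c) := by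
        calc (Bd.card : ℝ) * (ε * (x : ℝ) ^ (s + 1)) = ∑ _c ∈ Bd, ε * (x : ℝ) ^ (s + 1) := by rw [sum_const, nsmul_eq_mul]
          _ ≤ ∑ c ∈ Bd, gowers s x (gfun F₀ w F y.1 y.2 c) := by
              refine sum_le_sum fun c hc => ?_
              rw [hBd, mem_filter] at hc
              exact hc.2.le
          _ ≤ _ := by
              apply sum_le_sum_of_subset_of_nonneg
              · rw [hBd]; exact filter_subset _ _
              · intro c _ _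
                exact hNN s x hs _
      have h4 : (2 * (x : ℝ) + 1) ^ (s + 1) ≤ 3 ^ (s + 1) * (x : ℝ) ^ (s + 1) := by
        rw [← mul_pow]
        gcongr
        linarith
      have h5 : (Bd.card : ℝ) * (ε * (x : ℝ) ^ (s + 1)) ≤ (ε / (AB.card + 1) * (box d H).card) * (ε * (x : ℝ) ^ (s + 1)) := by
        refine (h3.trans h2).trans ?_
        rw [← GP_box_card d H]
        have h6 : ε₁ * (3 ^ (s + 1) * (x : ℝ) ^ (s + 1)) * (box d H).card =
            (ε / (AB.card + 1) * (box d H).card) * (ε * (x : ℝ) ^ (s + 1)) := by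
          rw [hε₁]
          field_simp
        rw [← h6]
        gcongr
      exact le_of_mul_le_mul_right h5 (by positivity)
    calc _ ≤ ∑ y ∈ AB, (((box d H).filter (fun c => ε * (x : ℝ) ^ (s + 1) < gowers s x (gfun F₀ w F y.1 y.2 c))).card : ℝ) := by
          exact_mod_cast card_biUnion_le
      _ ≤ ∑ _y ∈ AB, ε / (AB.card + 1) * (box d H).card := sum_le_sum h1
      _ = (AB.card / (AB.card + 1)) * (ε * (box d H).card) := by
          rw [sum_const, nsmul_eq_mul]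
          ring
      _ ≤ 1 * (ε * (box d H).card) := by
          gcongr
          rw [div_le_one (by positivity)]
          linarith
      _ = _ := one_mul _
  · intro c hc hcB a b ha haB hbB hab
    by_contra hh
    apply hcB
    rw [mem_biUnion]
    refine ⟨(a, b), ?_, ?_⟩
    · rw [hAB, mem_filter, mem_product, Fintype.mem_piFinset, Fintype.mem_piFinset]
      refine ⟨⟨fun i => ?_, fun i => ?_⟩, ha, hab⟩
      · rw [mem_Icc, ← abs_le]; exact haB i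
      · rw [mem_Icc, ← abs_le]; exact hbB i
    · rw [mem_filter]
      exact ⟨hc, not_le.mp hh⟩

end Pool.Agent.N718.GU
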