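import Pool.Agent.N718.GU.Stm

set_option autoImplicit false

/-!
The main estimate, for a fixed choice of the points.
-/

namespace Pool.Agent.N718.GU

open Finset

lemma GP_ev_add {d : ℕ} (c w : Fin (d + 1) → ℤ) (a : ℤ) (P : ℤ) : ev (c + a • w) P = ev c P + a * ev w P := by
  unfold ev
  rw [mul_sum, ← sum_add_distrib]
  refine sum_congr rfl fun i _ => ?_
  simp only [Pi.add_apply, Pi.smul_apply, smul_eq_mul]
  ring

lemma GP_ev_abs {d H X : ℕ} {c : Fin (d + 1) → ℤ} (hc : c ∈ box d H) {P : ℤ} (hX : 1 ≤ X) (hP : |P| ≤ X) :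
    |ev c P| ≤ (d + 1) * (H * (X : ℤ) ^ d) := by
  unfold ev
  refine (abs_sum_le_sum_abs _ _).trans ?_
  calc ∑ i : Fin (d + 1), |c i * P ^ (i : ℕ)| ≤ ∑ _i : Fin (d + 1), ((H : ℤ) * (X : ℤ) ^ d) := by
        refine sum_le_sum fun i _ => ?_
        rw [abs_mul, abs_pow]
        have h1 : |c i| ≤ H := by
          unfold box at hc
          rw [Fintype.mem_piFinset] at hc
          have := hc i
          rw [mem_Icc] at this
          rw [abs_le]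
          exact this
        have h2 : |P| ^ (i : ℕ) ≤ (X : ℤ) ^ d := by
          calc |P| ^ (i : ℕ) ≤ (X : ℤ) ^ (i : ℕ) := pow_le_pow_left₀ (abs_nonneg _) hP _
            _ ≤ (X : ℤ) ^ d := by
              apply pow_le_pow_right₀
              · exact_mod_cast hX
              · have := i.2
                omega
        exact mul_le_mul h1 h2 (by positivity) (by positivity)
    _ = _ := by
        rw [sum_const, card_univ, Fintype.card_fin, nsmul_eq_mul]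
        push_cast
        ring

lemma GP_direct (hS : P_SHIFT) (hI : P_INTERP) {F : ℤ → ℂ} (hF : ∀ n, ‖F n‖ ≤ 1) {d m X H : ℕ} (hm : m ≤ d) (P : ℤ)
    (Pj : Fin m → ℤ) (hPj : ∀ j, |Pj j| ≤ X) {G : Fin m → ℤ → ℂ} (hG : ∀ j n, ‖G j n‖ ≤ 1) {q : ℕ}
    (hq : q = (∏ j, (P - Pj j)).natAbs) {A : ℕ} :
    (A : ℝ) * ‖∑ c ∈ box d H, F (ev c P) * ∏ j, G j (ev c (Pj j))‖ ≤ ∑ c ∈ box d H, ‖V F q A (ev c P)‖ +
      A * (2 * (d + 1) * (A * (1 + (X : ℝ)) ^ m) * (2 * (H : ℝ) + 1) ^ d) := by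
  classical
  obtain ⟨w0, hw0, hw1⟩ := hI d m X Pj hm hPj
  -- the sign
  obtain ⟨w, hw2, hw3, hw4⟩ : ∃ w : Fin (d + 1) → ℤ, (∀ i, |w i| ≤ (1 + (X : ℤ)) ^ m) ∧ ev w P = q ∧ ∀ j, ev w (Pj j) = 0 := by
    have h0 : ∀ j, ev w0 (Pj j) = 0 := by
      intro j
      rw [hw1, prod_eq_zero (mem_univ j)]
      ring
    rcases le_total 0 (∏ j, (P - Pj j)) with h | h
    · refine ⟨w0, hw0, ?_, h0⟩
      rw [hw1, hq]
      omega
    · refine ⟨-w0, fun i => by rw [Pi.neg_apply, abs_neg]; exact hw0 i, ?_, ?_⟩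
      · have : ev (-w0) P = - ev w0 P := by
          unfold ev
          rw [← sum_neg_distrib]
          refine sum_congr rfl fun i _ => ?_
          rw [Pi.neg_apply]
          ring
        rw [this, hw1, hq]
        omega
      · intro j
        have : ev (-w0) (Pj j) = - ev w0 (Pj j) := by
          unfold ev
          rw [← sum_neg_distrib]
          refine sum_congr rfl fun i _ => ?_
          rw [Pi.neg_apply]
          ring
        rw [this, h0, neg_zero]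
  obtain ⟨Φ, hΦ⟩ : ∃ Φ : (Fin (d + 1) → ℤ) → ℂ, ∀ c, Φ c = F (ev c P) * ∏ j, G j (ev c (Pj j)) := ⟨_, fun _ => rfl⟩
  have hprod : ∀ c : Fin (d + 1) → ℤ, ‖∏ j, G j (ev c (Pj j))‖ ≤ 1 := by
    intro c
    rw [norm_prod]
    exact prod_le_one (fun _ _ => norm_nonneg _) (fun j _ => hG j _)
  have hΦ1 : ∀ c, ‖Φ c‖ ≤ 1 := by
    intro c
    rw [hΦ, norm_mul]
    exact mul_le_one₀ (hF _) (norm_nonneg _) (hprod c)
  have hsh : ∀ a ∈ Icc 1 A, ‖∑ c ∈ box d H, Φ (c + (a : ℤ) • w) - ∑ c ∈ box d H, Φ c‖ ≤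
      2 * (d + 1) * (A * (1 + (X : ℝ)) ^ m) * (2 * (H : ℝ) + 1) ^ d := by
    intro a ha
    rw [mem_Icc] at ha
    have h1 := hS d H (A * (1 + X) ^ m) ((a : ℤ) • w) (by
      intro i
      rw [Pi.smul_apply, smul_eq_mul, abs_mul]
      push_cast
      apply mul_le_mul _ (hw2 i) (abs_nonneg _) (by positivity)
      rw [abs_of_nonneg (by positivity)]
      exact_mod_cast ha.2) Φ hΦ1
    refine h1.trans (le_of_eq ?_)
    push_cast
    ring
  have hmain : (A : ℂ) * ∑ c ∈ box d H, Φ c = ∑ a ∈ Icc 1 A, ∑ c ∈ box d H, Φ (c + (a : ℤ) • w) -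
      ∑ a ∈ Icc 1 A, (∑ c ∈ box d H, Φ (c + (a : ℤ) • w) - ∑ c ∈ box d H, Φ c) := by
    rw [sum_sub_distrib, sum_const, Nat.card_Icc, Nat.add_sub_cancel, nsmul_eq_mul]
    ring
  have hswap : ∑ a ∈ Icc 1 A, ∑ c ∈ box d H, Φ (c + (a : ℤ) • w) =
      ∑ c ∈ box d H, V F q A (ev c P) * ∏ j, G j (ev c (Pj j)) := by
    rw [sum_comm]
    refine sum_congr rfl fun c _ => ?_
    unfold V
    rw [sum_mul]
    refine sum_congr rfl fun a _ => ?_
    rw [hΦ, GP_ev_add, hw3]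
    congr 1
    refine prod_congr rfl fun j _ => ?_
    rw [GP_ev_add, hw4, mul_zero, add_zero]
  have hgoal : (A : ℝ) * ‖∑ c ∈ box d H, Φ c‖ = ‖(A : ℂ) * ∑ c ∈ box d H, Φ c‖ := by
    rw [norm_mul, Complex.norm_natCast]
  have hΦs : ∑ c ∈ box d H, F (ev c P) * ∏ j, G j (ev c (Pj j)) = ∑ c ∈ box d H, Φ c :=
    sum_congr rfl fun c _ => (hΦ c).symm
  rw [hΦs, hgoal, hmain]
  refine (norm_sub_le _ _).trans (add_le_add ?_ ?_)
  · rw [hswap]
    refine (norm_sum_le _ _).trans (sum_le_sum fun c _ => ?_)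
    rw [norm_mul]
    exact mul_le_of_le_one_right (norm_nonneg _) (hprod c)
  · refine (norm_sum_le _ _).trans ?_
    calc _ ≤ ∑ _a ∈ Icc 1 A, (2 * (d + 1) * (A * (1 + (X : ℝ)) ^ m) * (2 * (H : ℝ) + 1) ^ d) := sum_le_sum hsh
      _ = _ := by
          rw [sum_const, Nat.card_Icc, Nat.add_sub_cancel, nsmul_eq_mul]

lemma GP_count (hC : P_COUNT) {d H X M : ℕ} (hX : 1 ≤ X) (hM : M = (d + 1) * (H * X ^ d)) {P : ℤ} (hP1 : 1 ≤ |P|)
    (hPH : |P| ≤ H) (hPX : |P| ≤ X) (φ : ℤ → ℝ) (hφ : ∀ n, 0 ≤ φ n) :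
    ∑ c ∈ box d H, φ (ev c P) ≤ (4 * (H : ℝ)) ^ d / |(P : ℝ)| ^ d * ∑ n ∈ Icc (-(M : ℤ)) M, φ n := by
  classical
  have hmap : ∀ c ∈ box d H, ev c P ∈ Icc (-(M : ℤ)) M := by
    intro c hc
    have := GP_ev_abs hc hX hPX
    rw [mem_Icc, ← abs_le, hM]
    push_cast
    exact this
  rw [← sum_fiberwise_of_maps_to hmap, mul_sum]
  refine sum_le_sum fun n _ => ?_
  have h1 : ∑ c ∈ (box d H).filter (fun c => ev c P = n), φ (ev c P) =
      (((box d H).filter (fun c => ev c P = n)).card : ℝ) * φ n := by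
    rw [← nsmul_eq_mul, ← sum_const]
    refine sum_congr rfl fun c hc => ?_
    rw [mem_filter] at hc
    rw [hc.2]
  rw [h1]
  apply mul_le_mul_of_nonneg_right _ (hφ n)
  have hP0 : (0:ℝ) < |(P : ℝ)| := by
    have : (1:ℝ) ≤ |(P : ℝ)| := by exact_mod_cast hP1
    linarith
  rw [le_div_iff₀ (by positivity)]
  exact hC d H P hP1 hPH n

lemma GP_fin {A q Y η K TT N M SV E E' : ℝ} (hA0 : 0 < A) (hq0r : 0 < q) (hY0 : 0 < Y) (hη : 0 < η) (hK0 : 0 ≤ K)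
    (hTT0 : 0 ≤ TT) (hAq3 : Y / 2 ≤ A * q) (hA2 : Y ≤ 4 * A ^ 2) (hYη : 64 ≤ η ^ 2 * Y)
    (hd : A * N ≤ SV + A * E) (hsum : SV ≤ K * (A * η * (2 * (M : ℝ) + 1) + 1 / (A * η) * (2 / q ^ 2 * TT + 8 * (2 * M + 1))))
    (herr : E ≤ E') (hM : 0 ≤ M) :
    N ≤ E' + K * (2 * η * (2 * M + 1) + 8 / (η * Y ^ 2) * TT) := by
  have h1 : 1 / (A * η) * (2 / q ^ 2 * TT) ≤ A * (8 / (η * Y ^ 2) * TT) := by
    have h2 : 1 / (A * η) * (2 / q ^ 2 * TT) = A * (2 / (η * (A * q) ^ 2) * TT) := by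
      field_simp
    rw [h2]
    apply mul_le_mul_of_nonneg_left _ hA0.le
    apply mul_le_mul_of_nonneg_right _ hTT0
    rw [div_le_div_iff₀ (by positivity) (by positivity)]
    have h3 : (Y / 2) ^ 2 ≤ (A * q) ^ 2 := by gcongr
    have h4 := mul_le_mul_of_nonneg_left h3 hη.le
    nlinarith
  have h4 : 1 / (A * η) * (8 * (2 * M + 1)) ≤ A * (η * (2 * M + 1)) := by
    rw [div_mul_eq_mul_div, one_mul, div_le_iff₀ (by positivity)]
    have h5 : 8 ≤ η ^ 2 * A ^ 2 := by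
      have h6 := mul_le_mul_of_nonneg_left hA2 (sq_nonneg η)
      linarith
    calc 8 * (2 * M + 1) ≤ (η ^ 2 * A ^ 2) * (2 * M + 1) := by gcongr
      _ = _ := by ring
  have h5 : K * (1 / (A * η) * (2 / q ^ 2 * TT)) ≤ K * (A * (8 / (η * Y ^ 2) * TT)) := mul_le_mul_of_nonneg_left h1 hK0
  have h6 : K * (1 / (A * η) * (8 * (2 * M + 1))) ≤ K * (A * (η * (2 * M + 1))) := mul_le_mul_of_nonneg_left h4 hK0
  have h7 : A * E ≤ A * E' := mul_le_mul_of_nonneg_left herr hA0.le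
  have hfin : A * N ≤ A * (E' + K * (2 * η * (2 * M + 1) + 8 / (η * Y ^ 2) * TT)) := by
    calc A * N ≤ SV + A * E := hd
      _ ≤ K * (A * η * (2 * M + 1) + 1 / (A * η) * (2 / q ^ 2 * TT + 8 * (2 * M + 1))) + A * E' := add_le_add hsum h7
      _ = K * (A * η * (2 * M + 1)) + K * (1 / (A * η) * (2 / q ^ 2 * TT)) + K * (1 / (A * η) * (8 * (2 * M + 1))) + A * E' := by
          ring
      _ ≤ K * (A * η * (2 * M + 1)) + K * (A * (8 / (η * Y ^ 2) * TT)) + K * (A * (η * (2 * M + 1))) + A * E' := by linarith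
      _ = _ := by ring
  exact le_of_mul_le_mul_left hfin hA0

/-- the bound for a fixed choice of the points -/
lemma GP_point (hC : P_COUNT) (hS : P_SHIFT) (hI : P_INTERP) (hV : P_VQ) (hFa : P_FAREY) {F : ℤ → ℂ} (hF : ∀ n, ‖F n‖ ≤ 1)
    {d m X H M Y L : ℕ} (hm : m ≤ d) (hX : 1 ≤ X) (hXH : X ≤ H) (hM : M = (d + 1) * (H * X ^ d)) (hL : 1 ≤ L)
    (hY : Y * (L * (1 + X) ^ m) ≤ H) (hYQ : (2 * X) ^ (2 * m) ≤ Y) {η : ℝ} (hη : 0 < η) (hη1 : η ≤ 1) (hYη : 64 / η ^ 2 ≤ Y)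
    {P : ℤ} (Pj : Fin m → ℤ) {t : ℝ} (ht : 0 < t) (hPt : t ≤ |(P : ℝ)|) (hPX : |P| ≤ X)
    (hPj : ∀ j, |Pj j| ≤ X) {G : Fin m → ℤ → ℂ} (hG : ∀ j n, ‖G j n‖ ≤ 1) {q : ℕ}
    (hq : q = (∏ j, (P - Pj j)).natAbs) (hq0 : q ≠ 0) :
    ‖∑ c ∈ box d H, F (ev c P) * ∏ j, G j (ev c (Pj j))‖ ≤ (d + 1) / L * (2 * (H : ℝ) + 1) ^ (d + 1) +
      (4 * (H : ℝ)) ^ d / t ^ d * (2 * η * (2 * M + 1) + 8 / (η * (Y : ℝ) ^ 2) *
        ∑ r ∈ q.divisors, ∑ z ∈ Icc (-(2 * M : ℤ)) (2 * M), ∑ a ∈ red r, ‖S F Y z ((a : ℝ) / r)‖ ^ 2) := by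
  classical
  have hq1 : 1 ≤ q := Nat.one_le_iff_ne_zero.mpr hq0
  -- size of `q`
  have hqQ : q ≤ (2 * X) ^ m := by
    have h1 : |∏ j, (P - Pj j)| ≤ (2 * (X : ℤ)) ^ m := by
      rw [abs_prod]
      calc ∏ j : Fin m, |P - Pj j| ≤ ∏ _j : Fin m, (2 * (X : ℤ)) := by
            refine prod_le_prod (fun _ _ => abs_nonneg _) fun j _ => ?_
            have := abs_sub P (Pj j)
            have h2 := hPj j
            linarith
        _ = _ := by rw [prod_const, card_univ, Fintype.card_fin]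
    have h2 : (q : ℤ) ≤ ((2 * X) ^ m : ℕ) := by
      rw [hq]
      push_cast
      exact h1
    exact_mod_cast h2
  have hYr : (64:ℝ) ≤ Y := by
    have : (64:ℝ) ≤ 64 / η ^ 2 := by
      rw [le_div_iff₀ (by positivity)]
      have : η ^ 2 ≤ 1 := pow_le_one₀ hη.le hη1
      linarith
    exact this.trans hYη
  have hY0 : (0:ℝ) < Y := by linarith
  have hYn : 64 ≤ Y := by exact_mod_cast hYr
  have hqq : q * q ≤ Y := by
    calc q * q ≤ (2 * X) ^ m * (2 * X) ^ m := Nat.mul_le_mul hqQ hqQ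
      _ = (2 * X) ^ (2 * m) := by rw [← pow_add]; congr 1; ring
      _ ≤ Y := hYQ
  have hqY2 : 2 * q ≤ Y := by
    by_cases h : q ≤ 2
    · omega
    · have : 2 * q ≤ q * q := Nat.mul_le_mul_right q (by omega)
      omega
  have hqY : q ≤ Y := by omega
  have hYH : Y ≤ H := by
    have h1 : 1 ≤ L * (1 + X) ^ m := Nat.one_le_iff_ne_zero.mpr (by positivity)
    calc Y ≤ Y * (L * (1 + X) ^ m) := Nat.le_mul_of_pos_right _ h1
      _ ≤ H := hY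
  have hHM : H ≤ M := by
    rw [hM]
    have h1 : 1 ≤ X ^ d := Nat.one_le_pow _ _ hX
    calc H ≤ H * X ^ d := Nat.le_mul_of_pos_right _ h1
      _ ≤ (d + 1) * (H * X ^ d) := Nat.le_mul_of_pos_left _ (by omega)
  have hqM : q ≤ M := by omega
  -- `A`
  obtain ⟨A, hA⟩ : ∃ A, A = Y / q := ⟨_, rfl⟩
  have hA1 : 1 ≤ A := by rw [hA]; exact (Nat.one_le_div_iff (by omega)).mpr hqY
  have hAY : A ≤ Y := by rw [hA]; exact Nat.div_le_self _ _
  have hAq1 : A * q ≤ Y := by rw [hA]; exact Nat.div_mul_le_self _ _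
  have hAq2 : Y < (A + 1) * q := by
    rw [hA]
    have := Nat.lt_mul_div_succ Y (show 0 < q by omega)
    calc Y < q * (Y / q + 1) := this
      _ = _ := by ring
  have hA0 : (0:ℝ) < A := by exact_mod_cast (show 0 < A by omega)
  have hq0r : (0:ℝ) < q := by exact_mod_cast (show 0 < q by omega)
  have hAq3 : (Y : ℝ) / 2 ≤ A * q := by
    have h1 : (Y : ℝ) < (A + 1) * q := by exact_mod_cast hAq2
    have h2 : 2 * (q : ℝ) ≤ Y := by exact_mod_cast hqY2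
    linarith
  have hA2 : (Y : ℝ) ≤ 4 * (A : ℝ) ^ 2 := by
    -- `q ≤ 2 A`
    have h1 : q ≤ 2 * A := by
      by_contra hh
      push Not at hh
      have h2 : (A + 1) * q ≤ q * q := Nat.mul_le_mul_right q (by omega)
      omega
    have h2 : (q : ℝ) ≤ 2 * A := by exact_mod_cast h1
    have h3 : (Y : ℝ) ≤ 2 * (A * q) := by linarith
    calc (Y : ℝ) ≤ 2 * (A * q) := h3
      _ ≤ 2 * (A * (2 * A)) := by gcongr
      _ = _ := by ring
  have hd := GP_direct hS hI hF hm P Pj hPj hG hq (A := A) (H := H)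
  have hP0 : (0:ℝ) < |(P : ℝ)| := lt_of_lt_of_le ht hPt
  have hP1 : 1 ≤ |P| := by
    rw [← Int.cast_abs] at hP0
    have : 0 < |P| := by exact_mod_cast hP0
    omega
  have hPH : |P| ≤ (H : ℤ) := hPX.trans (by exact_mod_cast hXH)
  have hc := GP_count hC hX hM hP1 hPH hPX (fun n => ‖V F q A n‖) (fun n => norm_nonneg _)
  -- from the first to the second moment
  have hcs : ∑ n ∈ Icc (-(M : ℤ)) M, ‖V F q A n‖ ≤ A * η * (2 * M + 1) + 1 / (A * η) * ∑ n ∈ Icc (-(M : ℤ)) M, ‖V F q A n‖ ^ 2 := by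
    have h1 : ∀ n ∈ Icc (-(M : ℤ)) M, ‖V F q A n‖ ≤ A * η + 1 / (A * η) * ‖V F q A n‖ ^ 2 := by
      intro n _
      have h2 : 0 < A * η := by positivity
      have h3 : 0 ≤ 1 / (A * η) * (‖V F q A n‖ - A * η) ^ 2 := by positivity
      have h4 : 1 / (A * η) * (‖V F q A n‖ - A * η) ^ 2 = 1 / (A * η) * ‖V F q A n‖ ^ 2 - 2 * ‖V F q A n‖ + A * η := by
        field_simp
        ring
      have h5 := norm_nonneg (V F q A n)
      linarith
    refine (sum_le_sum h1).trans (le_of_eq ?_)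
    rw [sum_add_distrib, sum_const, ← mul_sum, nsmul_eq_mul, Int.card_Icc]
    have h6 : (((M : ℤ) + 1 - -(M : ℤ)).toNat : ℝ) = 2 * M + 1 := by
      have : ((M : ℤ) + 1 - -(M : ℤ)).toNat = 2 * M + 1 := by omega
      rw [this]
      push_cast
      ring
    rw [h6]
    ring
  have hvq := hV F hF q Y M hq1 hqY hqM
  rw [← hA] at hvq
  have hfar : ∑ z ∈ Icc (-(2 * M : ℤ)) (2 * M), ∑ b ∈ range q, ‖S F Y z ((b : ℝ) / q)‖ ^ 2 =
      ∑ r ∈ q.divisors, ∑ z ∈ Icc (-(2 * M : ℤ)) (2 * M), ∑ a ∈ red r, ‖S F Y z ((a : ℝ) / r)‖ ^ 2 := by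
    rw [sum_comm]
    rw [sum_comm]
    rw [sum_comm (s := q.divisors)]
    refine sum_congr rfl fun z _ => ?_
    exact hFa F Y q z hq1
  rw [hfar] at hvq
  obtain ⟨TT, hTT⟩ : ∃ TT, TT = ∑ r ∈ q.divisors, ∑ z ∈ Icc (-(2 * M : ℤ)) (2 * M), ∑ a ∈ red r, ‖S F Y z ((a : ℝ) / r)‖ ^ 2 :=
    ⟨_, rfl⟩
  rw [← hTT] at hvq ⊢
  have hTT0 : 0 ≤ TT := by
    rw [hTT]
    exact sum_nonneg fun r _ => sum_nonneg fun z _ => sum_nonneg fun a _ => pow_nonneg (norm_nonneg _) 2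
  clear hTT hfar
  obtain ⟨K, hK⟩ : ∃ K, K = (4 * (H : ℝ)) ^ d / t ^ d := ⟨_, rfl⟩
  have hK0 : 0 ≤ K := by rw [hK]; positivity
  have hKP : (4 * (H : ℝ)) ^ d / |(P : ℝ)| ^ d ≤ K := by
    rw [hK]
    gcongr
  rw [← hK]
  obtain ⟨N, hN⟩ : ∃ N, N = ‖∑ c ∈ box d H, F (ev c P) * ∏ j, G j (ev c (Pj j))‖ := ⟨_, rfl⟩
  rw [← hN] at hd ⊢
  -- combine
  have hsum : ∑ c ∈ box d H, ‖V F q A (ev c P)‖ ≤ K * (A * η * (2 * M + 1) + 1 / (A * η) * (2 / (q : ℝ) ^ 2 * TT + 8 * (2 * M + 1))) := by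
    refine hc.trans ?_
    have h0 : 0 ≤ ∑ n ∈ Icc (-(M : ℤ)) M, ‖V F q A n‖ := sum_nonneg fun _ _ => norm_nonneg _
    calc (4 * (H : ℝ)) ^ d / |(P : ℝ)| ^ d * ∑ n ∈ Icc (-(M : ℤ)) M, ‖V F q A n‖ ≤ K * ∑ n ∈ Icc (-(M : ℤ)) M, ‖V F q A n‖ := by
          gcongr
      _ ≤ K * (A * η * (2 * M + 1) + 1 / (A * η) * ∑ n ∈ Icc (-(M : ℤ)) M, ‖V F q A n‖ ^ 2) := by gcongr
      _ ≤ _ := by gcongr
  have herr : 2 * ((d : ℝ) + 1) * (A * (1 + (X : ℝ)) ^ m) * (2 * (H : ℝ) + 1) ^ d ≤ (d + 1) / L * (2 * (H : ℝ) + 1) ^ (d + 1) := by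
    have hL0 : (0:ℝ) < L := by exact_mod_cast (show 0 < L by omega)
    have h1 : (A : ℝ) * (1 + (X : ℝ)) ^ m ≤ H / L := by
      rw [le_div_iff₀ hL0]
      have h2 : A * ((1 + X) ^ m) * L ≤ H := by
        calc A * ((1 + X) ^ m) * L ≤ Y * ((1 + X) ^ m) * L := by gcongr
          _ = Y * (L * (1 + X) ^ m) := by ring
          _ ≤ H := hY
      exact_mod_cast h2
    calc 2 * ((d : ℝ) + 1) * (A * (1 + (X : ℝ)) ^ m) * (2 * (H : ℝ) + 1) ^ d ≤ 2 * ((d : ℝ) + 1) * (H / L) * (2 * (H : ℝ) + 1) ^ d := by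
          gcongr
      _ = (d + 1) / L * ((2 * H) * (2 * (H : ℝ) + 1) ^ d) := by ring
      _ ≤ (d + 1) / L * ((2 * H + 1) * (2 * (H : ℝ) + 1) ^ d) := by
          gcongr
          linarith
      _ = _ := by rw [pow_succ]; ring
  refine GP_fin hA0 hq0r hY0 hη hK0 hTT0 hAq3 hA2 (by
    rw [div_le_iff₀ (by positivity)] at hYη
    linarith) hd hsum herr (Nat.cast_nonneg M)

end Pool.Agent.N718.GU
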