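import Pool.Agent.N718.GU.GP1

set_option autoImplicit false

/-!
The main estimate: average over the points.
-/

namespace Pool.Agent.N718.GU

open Finset

lemma GP_aff_sub {D : ℕ} (p p' : Fin (D + 1) → ℤ) (v : Fin D → ℤ) : aff (p - p') v = aff p v - aff p' v := by
  unfold aff
  simp only [Pi.sub_apply, sub_mul, sum_sub_distrib]
  ring

lemma GP_aff_abs {D B x : ℕ} {p : Fin (D + 1) → ℤ} (hp : ∀ i, |p i| ≤ B) (hx : 1 ≤ x) {v : Fin D → ℤ} (hv : v ∈ cube D x) :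
    |aff p v| ≤ ((D + 1) * (B + 1) * x : ℕ) := by
  unfold aff
  refine (abs_add_le _ _).trans ?_
  have h1 : |∑ i : Fin D, p i.succ * v i| ≤ D * ((B : ℤ) * x) := by
    refine (abs_sum_le_sum_abs _ _).trans ?_
    calc ∑ i : Fin D, |p i.succ * v i| ≤ ∑ _i : Fin D, ((B : ℤ) * x) := by
          refine sum_le_sum fun i _ => ?_
          rw [abs_mul]
          have h2 : |v i| ≤ x := by
            unfold cube at hv
            rw [Fintype.mem_piFinset] at hv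
            have := hv i
            rw [mem_Icc] at this
            rw [abs_le]
            exact this
          exact mul_le_mul (hp _) h2 (abs_nonneg _) (by positivity)
      _ = _ := by rw [sum_const, card_univ, Fintype.card_fin, nsmul_eq_mul]
  have h2 : |p 0| ≤ (B : ℤ) * x := by
    refine (hp 0).trans ?_
    have h3 : (B : ℤ) * 1 ≤ B * x := by
      apply mul_le_mul_of_nonneg_left _ (by positivity)
      exact_mod_cast hx
    linarith
  push_cast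
  have h3 : 0 ≤ ((D : ℤ) + 1) * x := by positivity
  nlinarith

lemma GP_cube_card (D x : ℕ) : ((cube D x).card : ℝ) = (2 * (x : ℝ) + 1) ^ D := by
  unfold cube
  rw [Fintype.card_piFinset]
  simp only [Int.card_Icc, prod_const, card_univ, Fintype.card_fin]
  have : ((x : ℤ) + 1 - -(x : ℤ)).toNat = 2 * x + 1 := by omega
  rw [this]
  push_cast
  ring

lemma GP_box_card (d H : ℕ) : ((box d H).card : ℝ) = (2 * (H : ℝ) + 1) ^ (d + 1) := by
  unfold box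
  rw [Fintype.card_piFinset]
  simp only [Int.card_Icc, prod_const, card_univ, Fintype.card_fin]
  have : ((H : ℤ) + 1 - -(H : ℤ)).toNat = 2 * H + 1 := by omega
  rw [this]
  push_cast
  ring

lemma GP_norm_e (t : ℝ) : ‖e t‖ = 1 := by
  unfold e
  rw [show (2 * Real.pi * Complex.I * t : ℂ) = ((2 * Real.pi * t : ℝ) : ℂ) * Complex.I by push_cast; ring]
  exact Complex.norm_exp_ofReal_mul_I _

lemma GP_S_le {F : ℤ → ℂ} (hF : ∀ n, ‖F n‖ ≤ 1) (Y : ℕ) (z : ℤ) (α : ℝ) : ‖S F Y z α‖ ≤ Y := by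
  unfold S
  refine (norm_sum_le _ _).trans ?_
  calc ∑ y ∈ Ioc z (z + (Y : ℤ)), ‖F y * e ((y : ℝ) * α)‖ ≤ ∑ _y ∈ Ioc z (z + (Y : ℤ)), (1:ℝ) := by
        refine sum_le_sum fun y _ => ?_
        rw [norm_mul, GP_norm_e, mul_one]
        exact hF _
    _ = Y := by
        rw [sum_const, Int.card_Ioc, nsmul_eq_mul, mul_one]
        have : (z + (Y : ℤ) - z).toNat = Y := by omega
        rw [this]

/-- the weight of the denominator `r` -/
noncomputable def GT (F : ℤ → ℂ) (Y M r : ℕ) : ℝ :=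
  ∑ z ∈ Icc (-(2 * M : ℤ)) (2 * M), ∑ a ∈ red r, ‖S F Y z ((a : ℝ) / r)‖ ^ 2

lemma GT_nonneg (F : ℤ → ℂ) (Y M r : ℕ) : 0 ≤ GT F Y M r := by
  unfold GT
  exact sum_nonneg fun z _ => sum_nonneg fun a _ => pow_nonneg (norm_nonneg _) 2

lemma GT_small {F : ℤ → ℂ} (hF : ∀ n, ‖F n‖ ≤ 1) {ε' : ℝ} {Y M : ℕ} (hU : ∀ α : ℝ,
    ∑ z ∈ Icc (-(2 * M : ℤ)) (2 * M), ‖S F Y z α‖ ≤ ε' * Y * M) (r : ℕ) : GT F Y M r ≤ r * (ε' * (Y : ℝ) ^ 2 * M) := by
  unfold GT
  rw [sum_comm]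
  calc ∑ a ∈ red r, ∑ z ∈ Icc (-(2 * M : ℤ)) (2 * M), ‖S F Y z ((a : ℝ) / r)‖ ^ 2 ≤
      ∑ _a ∈ red r, (Y * (ε' * Y * M)) := by
        refine sum_le_sum fun a _ => ?_
        refine le_trans ?_ (mul_le_mul_of_nonneg_left (hU ((a : ℝ) / r)) (Nat.cast_nonneg Y))
        rw [mul_sum]
        refine sum_le_sum fun z _ => ?_
        rw [pow_two]
        exact mul_le_mul_of_nonneg_right (GP_S_le hF Y z _) (norm_nonneg _)
    _ = (red r).card * (Y * (ε' * Y * M)) := by rw [sum_const, nsmul_eq_mul]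
    _ ≤ r * (Y * (ε' * Y * M)) := by
        apply mul_le_mul_of_nonneg_right
        · have : (red r).card ≤ r := by
            unfold red
            exact (card_filter_le _ _).trans (by rw [card_range])
          exact_mod_cast this
        · have h0 := hU 0
          have h1 : 0 ≤ ∑ z ∈ Icc (-(2 * M : ℤ)) (2 * M), ‖S F Y z 0‖ := sum_nonneg fun _ _ => norm_nonneg _
          exact mul_nonneg (Nat.cast_nonneg _) (h1.trans h0)
    _ = _ := by ring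

lemma GT_sum {F : ℤ → ℂ} {C : ℝ} (hC : 0 < C) {Y M Q : ℕ} (hM : 1 ≤ M) (hQY : Q ^ 2 ≤ Y)
    (hls : ∀ z : ℤ, ∑ r ∈ Icc 1 Q, ∑ a ∈ red r, ‖S F Y z ((a : ℝ) / r)‖ ^ 2 ≤ C * ((Y : ℝ) + (Q : ℝ) ^ 2) * Y) :
    ∑ r ∈ Icc 1 Q, GT F Y M r ≤ 10 * C * M * (Y : ℝ) ^ 2 := by
  unfold GT
  rw [sum_comm]
  have hQ : (Q : ℝ) ^ 2 ≤ Y := by exact_mod_cast hQY
  calc _ ≤ ∑ _z ∈ Icc (-(2 * M : ℤ)) (2 * M), (C * (2 * (Y : ℝ)) * Y) := by
        refine sum_le_sum fun z _ => (hls z).trans ?_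
        gcongr
        linarith
    _ = (4 * M + 1) * (C * (2 * (Y : ℝ)) * Y) := by
        rw [sum_const, Int.card_Icc, nsmul_eq_mul]
        have : (2 * (M : ℤ) + 1 - -(2 * (M : ℤ))).toNat = 4 * M + 1 := by omega
        rw [this]
        push_cast
        ring
    _ ≤ (5 * M) * (C * (2 * (Y : ℝ)) * Y) := by
        have h1 : (1:ℝ) ≤ M := by exact_mod_cast hM
        gcongr
        linarith
    _ = _ := by ring

lemma GP_mean {ι : Type*} (s : Finset ι) (q : ι → ℕ) (T : ℕ → ℝ) (hT : ∀ r, 0 ≤ T r) {Q R : ℕ} (hq0 : ∀ v ∈ s, q v ≠ 0)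
    (hqQ : ∀ v ∈ s, q v ≤ Q) {N ε₂ t₁ t₂ : ℝ} (hN : (s.card : ℝ) ≤ N) (hN0 : 0 ≤ N)
    (hdiv : ∀ r, R < r → ((s.filter (fun v => r ∣ q v)).card : ℝ) ≤ ε₂ * N) (hε₂ : 0 ≤ ε₂)
    (h1 : ∑ r ∈ Icc 1 R, T r ≤ t₁) (h2 : ∑ r ∈ Icc 1 Q, T r ≤ t₂) :
    ∑ v ∈ s, ∑ r ∈ (q v).divisors, T r ≤ (t₁ + ε₂ * t₂) * N := by
  classical
  have e1 : ∀ v ∈ s, ∑ r ∈ (q v).divisors, T r = ∑ r ∈ Icc 1 Q, if r ∣ q v then T r else 0 := by
    intro v hv
    rw [← sum_filter]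
    refine sum_congr ?_ fun _ _ => rfl
    ext r
    rw [Nat.mem_divisors, mem_filter, mem_Icc]
    constructor
    · rintro ⟨h3, h4⟩
      have h5 := Nat.le_of_dvd (Nat.pos_of_ne_zero h4) h3
      have h6 := Nat.pos_of_dvd_of_pos h3 (Nat.pos_of_ne_zero h4)
      exact ⟨⟨h6, h5.trans (hqQ v hv)⟩, h3⟩
    · rintro ⟨_, h4⟩
      exact ⟨h4, hq0 v hv⟩
  rw [sum_congr rfl e1, sum_comm]
  have e2 : ∀ r ∈ Icc 1 Q, (∑ v ∈ s, if r ∣ q v then T r else 0) ≤ (if r ≤ R then T r * N else 0) + T r * (ε₂ * N) := by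
    intro r _
    rw [← sum_filter, sum_const, nsmul_eq_mul]
    by_cases hr : r ≤ R
    · rw [if_pos hr]
      have h3 : ((s.filter (fun v => r ∣ q v)).card : ℝ) ≤ N := by
        refine le_trans ?_ hN
        exact_mod_cast card_filter_le _ _
      have h4 : 0 ≤ T r * (ε₂ * N) := mul_nonneg (hT r) (mul_nonneg hε₂ hN0)
      have h5 := mul_le_mul_of_nonneg_right h3 (hT r)
      linarith
    · rw [if_neg hr]
      have h5 := mul_le_mul_of_nonneg_right (hdiv r (by omega)) (hT r)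
      linarith
  refine (sum_le_sum e2).trans ?_
  rw [sum_add_distrib, ← sum_filter]
  have e3 : ∑ r ∈ (Icc 1 Q).filter (fun r => r ≤ R), T r * N ≤ t₁ * N := by
    rw [← sum_mul]
    apply mul_le_mul_of_nonneg_right _ hN0
    refine le_trans ?_ h1
    apply sum_le_sum_of_subset_of_nonneg
    · intro r hr
      rw [mem_filter, mem_Icc] at hr
      rw [mem_Icc]
      exact ⟨hr.1.1, hr.2⟩
    · intro r _ _
      exact hT r
  have e4 : ∑ r ∈ Icc 1 Q, T r * (ε₂ * N) ≤ t₂ * (ε₂ * N) := by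
    rw [← sum_mul]
    exact mul_le_mul_of_nonneg_right h2 (mul_nonneg hε₂ hN0)
  linarith

end Pool.Agent.N718.GU
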