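import Pool.Agent.N718.GU.GP3

set_option autoImplicit false

/-!
The main estimate: choice of the parameters.
-/

namespace Pool.Agent.N718.GU

open Finset

lemma GP_KM {d κ x H M X : ℕ} {δ : ℝ} (hδ : 0 < δ) (hx : 1 ≤ x) (hH : 1 ≤ H) (hX : X = κ * x) (hκ : 1 ≤ κ)
    (hM : M = (d + 1) * (H * X ^ d)) :
    (4 * (H : ℝ)) ^ d / (δ * x) ^ d * (2 * M + 1) ≤ 3 * (d + 1) * (4 * κ / δ) ^ d * (2 * (H : ℝ) + 1) ^ (d + 1) := by
  have hxr : (0:ℝ) < x := by exact_mod_cast (show 0 < x by omega)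
  have hκr : (0:ℝ) < κ := by exact_mod_cast (show 0 < κ by omega)
  have hHr : (1:ℝ) ≤ H := by exact_mod_cast hH
  have hM1 : (1:ℝ) ≤ M := by
    have h1 : 1 ≤ M := by
      rw [hM, hX]
      exact Nat.one_le_iff_ne_zero.mpr (by positivity)
    exact_mod_cast h1
  have hMr : (M : ℝ) = (d + 1) * (H * (κ * x) ^ d) := by
    rw [hM, hX]
    push_cast
    ring
  have h2 : (H : ℝ) ^ (d + 1) ≤ (2 * (H : ℝ) + 1) ^ (d + 1) := by
    gcongr
    linarith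
  calc (4 * (H : ℝ)) ^ d / (δ * x) ^ d * (2 * M + 1) ≤ (4 * (H : ℝ)) ^ d / (δ * x) ^ d * (3 * M) := by
        gcongr
        linarith
    _ = 3 * (d + 1) * (4 * κ / δ) ^ d * (H : ℝ) ^ (d + 1) := by
        rw [hMr, mul_pow, mul_pow, mul_pow, div_pow, mul_pow, pow_succ]
        field_simp
    _ ≤ _ := by gcongr

lemma GP_final {ε ε₁ ε₂ ε' η C C₁ K bc N : ℝ} {m d L R Y M : ℕ} (hε : 0 < ε) (hη : 0 < η) (hC : 0 < C) (hC₁ : 0 < C₁)
    (hbc : 0 ≤ bc) (hN : 0 ≤ N) (hK : 0 ≤ K) (hY : 0 < Y) (h1 : ε₁ = ε / (4 * (m + 1))) (h2 : ((d : ℝ) + 1) / L ≤ ε / 8)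
    (h3 : η ≤ ε / (16 * C₁)) (h4 : ε₂ = η * ε / (640 * C * C₁)) (h5 : ε' = η * ε / (64 * C₁ * ((R : ℝ) + 1) ^ 2))
    (h6 : K * (2 * M + 1) ≤ C₁ * bc) :
    ((m + 1) * ε₁ * bc + (d + 1) / L * bc +
      K * (2 * η * (2 * M + 1) + 8 / (η * (Y : ℝ) ^ 2) *
        (R * (R * (ε' * (Y : ℝ) ^ 2 * M)) + ε₂ * (10 * C * M * (Y : ℝ) ^ 2)))) * N ≤ ε * N * bc := by
  have hYr : (0:ℝ) < Y := by exact_mod_cast hY
  have hm0 : (0:ℝ) < (m : ℝ) + 1 := by positivity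
  have hR0 : (0:ℝ) < (R : ℝ) + 1 := by positivity
  have hMr : (0:ℝ) ≤ M := Nat.cast_nonneg _
  have e1 : (m + 1) * ε₁ * bc = ε / 4 * bc := by
    rw [h1]
    field_simp
  have e2 : (d + 1) / L * bc ≤ ε / 8 * bc := mul_le_mul_of_nonneg_right h2 hbc
  have e3 : K * (2 * η * (2 * M + 1)) ≤ ε / 8 * bc := by
    have h7 : K * (2 * η * (2 * M + 1)) = 2 * η * (K * (2 * M + 1)) := by ring
    rw [h7]
    calc 2 * η * (K * (2 * M + 1)) ≤ 2 * η * (C₁ * bc) := by gcongr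
      _ ≤ 2 * (ε / (16 * C₁)) * (C₁ * bc) := by gcongr
      _ = _ := by
          field_simp
          ring
  have hKM : K * M ≤ C₁ * bc := by
    have : K * M ≤ K * (2 * M + 1) := by
      gcongr
      linarith
    linarith
  have e4 : K * (8 / (η * (Y : ℝ) ^ 2) *
        (R * (R * (ε' * (Y : ℝ) ^ 2 * M)) + ε₂ * (10 * C * M * (Y : ℝ) ^ 2))) ≤ ε / 4 * bc := by
    have h7 : K * (8 / (η * (Y : ℝ) ^ 2) * (R * (R * (ε' * (Y : ℝ) ^ 2 * M)) + ε₂ * (10 * C * M * (Y : ℝ) ^ 2))) =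
        8 / η * (K * M) * ((R : ℝ) ^ 2 * ε' + 10 * C * ε₂) := by
      field_simp
    rw [h7]
    have h8 : (R : ℝ) ^ 2 * ε' ≤ η * ε / (64 * C₁) := by
      rw [h5]
      have h9 : (R : ℝ) ^ 2 * (η * ε / (64 * C₁ * ((R : ℝ) + 1) ^ 2)) = η * ε / (64 * C₁) * ((R : ℝ) ^ 2 / ((R : ℝ) + 1) ^ 2) := by
        field_simp
      rw [h9]
      apply mul_le_of_le_one_right (by positivity)
      rw [div_le_one (by positivity)]
      have : (0:ℝ) ≤ R := Nat.cast_nonneg _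
      gcongr
      linarith
    have h9 : 10 * C * ε₂ = η * ε / (64 * C₁) := by
      rw [h4]
      field_simp
      ring
    have h10 : 0 ≤ (R : ℝ) ^ 2 * ε' + 10 * C * ε₂ := by
      rw [h5, h4]
      positivity
    calc 8 / η * (K * M) * ((R : ℝ) ^ 2 * ε' + 10 * C * ε₂) ≤ 8 / η * (C₁ * bc) * (η * ε / (64 * C₁) + η * ε / (64 * C₁)) := by
          apply mul_le_mul _ _ h10 (by positivity)
          · gcongr
          · linarith
      _ = _ := by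
          field_simp
          ring
  have h11 : (m + 1) * ε₁ * bc + (d + 1) / L * bc +
      K * (2 * η * (2 * M + 1) + 8 / (η * (Y : ℝ) ^ 2) *
        (R * (R * (ε' * (Y : ℝ) ^ 2 * M)) + ε₂ * (10 * C * M * (Y : ℝ) ^ 2))) ≤ ε * bc := by
    rw [mul_add K]
    have : 0 ≤ ε * bc := by positivity
    linarith
  calc _ ≤ (ε * bc) * N := mul_le_mul_of_nonneg_right h11 hN
    _ = _ := by ring

theorem t_GP (hC : P_COUNT) (hS : P_SHIFT) (hI : P_INTERP) (hV : P_VQ) (hFa : P_FAREY) (hLS : P_LS) (hD : P_DIV)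
    (hSm : P_SMALL) : P_GP := by
  classical
  intro F hF hU m D B d hm ε hε
  obtain ⟨C, hC0, hls⟩ := hLS
  obtain ⟨ε₁, hε₁⟩ : ∃ ε₁ : ℝ, ε₁ = ε / (4 * (m + 1)) := ⟨_, rfl⟩
  have hε₁0 : 0 < ε₁ := by rw [hε₁]; positivity
  obtain ⟨δ, hδ, x₁, hsm⟩ := hSm D (2 * B) ε₁ hε₁0
  obtain ⟨κ, hκ⟩ : ∃ κ, κ = (D + 1) * (B + 1) := ⟨_, rfl⟩
  have hκ1 : 1 ≤ κ := by rw [hκ]; exact Nat.one_le_iff_ne_zero.mpr (by positivity)
  obtain ⟨C₁, hC₁⟩ : ∃ C₁ : ℝ, C₁ = 3 * (d + 1) * (4 * κ / δ) ^ d := ⟨_, rfl⟩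
  have hκr : (0:ℝ) < κ := by exact_mod_cast (show 0 < κ by omega)
  have hC₁0 : 0 < C₁ := by rw [hC₁]; positivity
  obtain ⟨η, hη⟩ : ∃ η : ℝ, η = min 1 (ε / (16 * C₁)) := ⟨_, rfl⟩
  have hη0 : 0 < η := by
    rw [hη]
    exact lt_min one_pos (by positivity)
  have hη1 : η ≤ 1 := by rw [hη]; exact min_le_left _ _
  have hη2 : η ≤ ε / (16 * C₁) := by rw [hη]; exact min_le_right _ _
  obtain ⟨L, hL⟩ : ∃ L : ℕ, L = ⌈8 * ((d : ℝ) + 1) / ε⌉₊ + 1 := ⟨_, rfl⟩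
  have hL1 : 1 ≤ L := by omega
  have hLr : (0:ℝ) < L := by exact_mod_cast (show 0 < L by omega)
  have hL2 : ((d : ℝ) + 1) / L ≤ ε / 8 := by
    rw [div_le_div_iff₀ hLr (by norm_num)]
    have h1 : 8 * ((d : ℝ) + 1) / ε ≤ L := by
      rw [hL]
      push_cast
      have := Nat.le_ceil (8 * ((d : ℝ) + 1) / ε)
      linarith
    rw [div_le_iff₀ hε] at h1
    linarith
  obtain ⟨ε₂, hε₂⟩ : ∃ ε₂ : ℝ, ε₂ = η * ε / (640 * C * C₁) := ⟨_, rfl⟩
  have hε₂0 : 0 < ε₂ := by rw [hε₂]; positivity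
  obtain ⟨R, x₂, hdiv⟩ := hD D (2 * B) m ε₂ hε₂0
  obtain ⟨ε', hε'⟩ : ∃ ε' : ℝ, ε' = η * ε / (64 * C₁ * ((R : ℝ) + 1) ^ 2) := ⟨_, rfl⟩
  have hε'0 : 0 < ε' := by rw [hε']; positivity
  obtain ⟨Y₀, hUY⟩ := hU ε' hε'0
  obtain ⟨Z, hZ⟩ : ∃ Z : ℕ, Z = Y₀ + ⌈64 / η ^ 2⌉₊ + 1 := ⟨_, rfl⟩
  refine ⟨max (max x₁ x₂) (L * (2 * κ) ^ (3 * m) + Z * L * (2 * κ) ^ m + κ + 1), fun x hx H hH p₀ p hp₀ hp hne hpj G hG => ?_⟩
  have hx₁ : x₁ ≤ x := le_trans (le_trans (le_max_left _ _) (le_max_left _ _)) hx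
  have hx₂ : x₂ ≤ x := le_trans (le_trans (le_max_right _ _) (le_max_left _ _)) hx
  have hx₃ : L * (2 * κ) ^ (3 * m) + Z * L * (2 * κ) ^ m + κ + 1 ≤ x := le_trans (le_max_right _ _) hx
  have hx1 : 1 ≤ x := by omega
  obtain ⟨X, hX⟩ : ∃ X, X = κ * x := ⟨_, rfl⟩
  have hX1 : 1 ≤ X := by rw [hX]; exact Nat.one_le_iff_ne_zero.mpr (by positivity)
  have hX2 : 1 + X ≤ 2 * κ * x := by rw [mul_assoc, ← hX]; omega
  -- powers of `x`
  have hxp : ∀ c n : ℕ, c ≤ x → n + 1 ≤ 3 * (m + 1) → c * x ^ n ≤ H := by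
    intro c n hc hn
    calc c * x ^ n ≤ x * x ^ n := Nat.mul_le_mul_right _ hc
      _ = x ^ (n + 1) := by ring
      _ ≤ x ^ (3 * (m + 1)) := Nat.pow_le_pow_right hx1 hn
      _ ≤ H := hH
  obtain ⟨Y, hY⟩ : ∃ Y, Y = H / (L * (1 + X) ^ m) := ⟨_, rfl⟩
  have hden : 0 < L * (1 + X) ^ m := by positivity
  have hY1 : Y * (L * (1 + X) ^ m) ≤ H := by rw [hY]; exact Nat.div_mul_le_self _ _
  have hYZ : Z ≤ Y := by
    rw [hY, Nat.le_div_iff_mul_le hden]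
    calc Z * (L * (1 + X) ^ m) ≤ Z * (L * (2 * κ * x) ^ m) := by gcongr
      _ = (Z * L * (2 * κ) ^ m) * x ^ m := by rw [mul_pow]; ring
      _ ≤ H := hxp _ _ (by omega) (by omega)
  have hYQ : ((2 * X) ^ m) ^ 2 ≤ Y := by
    rw [hY, Nat.le_div_iff_mul_le hden]
    calc ((2 * X) ^ m) ^ 2 * (L * (1 + X) ^ m) ≤ ((2 * X) ^ m) ^ 2 * (L * (2 * κ * x) ^ m) := by gcongr
      _ = (L * (2 * κ) ^ (3 * m)) * x ^ (3 * m) := by
          rw [hX, ← mul_assoc 2 κ x, mul_pow, mul_pow, show 3 * m = m * 2 + m by ring, pow_add (2 * κ), pow_add x, pow_mul, pow_mul]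
          ring
      _ ≤ H := hxp _ _ (by omega) (by omega)
  have hXH : X ≤ H := by
    rw [hX]
    have := hxp κ 1 (by omega) (by omega)
    rwa [pow_one] at this
  have hH1 : 1 ≤ H := le_trans hX1 hXH
  obtain ⟨M, hM⟩ : ∃ M, M = (d + 1) * (H * X ^ d) := ⟨_, rfl⟩
  have hHM : H ≤ M := by
    rw [hM]
    have h1 : 1 ≤ X ^ d := Nat.one_le_pow _ _ hX1
    calc H ≤ H * X ^ d := Nat.le_mul_of_pos_right _ h1
      _ ≤ (d + 1) * (H * X ^ d) := Nat.le_mul_of_pos_left _ (by omega)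
  have hYH : Y ≤ H := by rw [hY]; exact Nat.div_le_self _ _
  have hYη : 64 / η ^ 2 ≤ (Y : ℝ) := by
    have h1 : (⌈64 / η ^ 2⌉₊ : ℝ) ≤ Y := by exact_mod_cast (show ⌈64 / η ^ 2⌉₊ ≤ Y by omega)
    exact (Nat.le_ceil _).trans h1
  have hpp : ∀ j i, |(p₀ - p j) i| ≤ ((2 * B : ℕ) : ℤ) := by
    intro j i
    rw [Pi.sub_apply]
    have h1 := abs_sub (p₀ i) (p j i)
    have h2 := hp₀ i
    have h3 := hp j i
    push_cast
    linarith
  have havg := GP_avg hC hS hI hV hFa hF (D := D) (B := B) (x := x) (X := X) (H := H) (M := M) (Y := Y) (L := L)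
    (Q := (2 * X) ^ m) (R := R) hm hx1 (by rw [hX, hκ]) hXH hM hL1 hY1 rfl hYQ hη0 hη1 hYη hδ hC0
    (fun z => hls F hF Y _ z) hε'0.le hε₁0.le hε₂0.le (fun α => hUY Y (by omega) M (by omega) α) p₀ p hp₀ hp
    (hsm x hx₁ p₀ (fun i => (hp₀ i).trans (by push_cast; linarith [(Nat.cast_nonneg B : (0:ℤ) ≤ B)])) hne)
    (by
      intro j
      by_cases h : ∃ i : Fin D, (p₀ - p j) i.succ ≠ 0
      · refine le_trans ?_ (hsm x hx₁ (p₀ - p j) (hpp j) h)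
        have : (cube D x).filter (fun v => aff (p₀ - p j) v = 0) ⊆
            (cube D x).filter (fun v => |(aff (p₀ - p j) v : ℝ)| ≤ δ * x) := by
          intro v hv
          rw [mem_filter] at hv ⊢
          refine ⟨hv.1, ?_⟩
          rw [hv.2]
          simp only [Int.cast_zero, abs_zero]
          positivity
        exact_mod_cast card_le_card this
      · push Not at h
        have h1 : (cube D x).filter (fun v => aff (p₀ - p j) v = 0) = ∅ := by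
          apply filter_eq_empty_iff.mpr
          intro v _ h2
          unfold aff at h2
          rw [sum_eq_zero (fun i _ => by rw [h i, zero_mul]), add_zero] at h2
          apply hpj j
          funext i
          have h3 : (p₀ - p j) i = 0 := by
            refine Fin.cases h2 (fun i => h i) i
          rw [Pi.sub_apply] at h3
          omega
        rw [h1, card_empty, Nat.cast_zero]
        positivity)
    (fun r hr => hdiv x hx₂ (fun j => p₀ - p j) (fun j => sub_ne_zero.mpr (hpj j).symm) hpp r hr) G hG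
  refine havg.trans ?_
  exact GP_final hε hη0 hC0 hC₁0 (by positivity) (by positivity) (by positivity) (by omega) hε₁ hL2 hη2 hε₂ hε'
    (by rw [hC₁]; exact GP_KM hδ hx1 hH1 hX hκ1 hM)

end Pool.Agent.N718.GU
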