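import Pool.Agent.N718.GU.Stm

set_option autoImplicit false

namespace Pool.Agent.N718.GU

open Finset Polynomial

theorem INTERP_coeff {ι : Type*} (X₀ : ℤ) (hX : 0 ≤ X₀) (P : ι → ℤ) (s : Finset ι) (h : ∀ j ∈ s, |P j| ≤ X₀) :
    ∀ i : ℕ, |(∏ j ∈ s, (X - C (P j)) : ℤ[X]).coeff i| ≤ (1 + X₀) ^ s.card := by
  classical
  induction s using Finset.induction_on with
  | empty =>
    intro i
    rw [Finset.prod_empty, coeff_one]
    split_ifs <;> simp
  | insert a s ha ih =>
    intro i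
    have ih' := ih (fun j hj => h j (Finset.mem_insert_of_mem hj))
    have hpa := h a (Finset.mem_insert_self _ _)
    rw [Finset.prod_insert ha, Finset.card_insert_of_notMem ha, sub_mul, coeff_sub, coeff_C_mul]
    have h1 : |(X * ∏ j ∈ s, (X - C (P j)) : ℤ[X]).coeff i| ≤ (1 + X₀) ^ s.card := by
      cases i with
      | zero =>
        rw [coeff_X_mul_zero, abs_zero]
        positivity
      | succ n =>
        rw [coeff_X_mul]
        exact ih' n
    have h2 : |P a * (∏ j ∈ s, (X - C (P j)) : ℤ[X]).coeff i| ≤ X₀ * (1 + X₀) ^ s.card := by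
      rw [abs_mul]
      exact mul_le_mul hpa (ih' i) (abs_nonneg _) hX
    calc |(X * ∏ j ∈ s, (X - C (P j)) : ℤ[X]).coeff i - P a * (∏ j ∈ s, (X - C (P j)) : ℤ[X]).coeff i|
        ≤ |(X * ∏ j ∈ s, (X - C (P j)) : ℤ[X]).coeff i| + |P a * (∏ j ∈ s, (X - C (P j)) : ℤ[X]).coeff i| := abs_sub _ _
      _ ≤ (1 + X₀) ^ s.card + X₀ * (1 + X₀) ^ s.card := add_le_add h1 h2
      _ = (1 + X₀) ^ (s.card + 1) := by ring

theorem t_INTERP : P_INTERP := by
  intro d m X₀ P hm hP
  set p : ℤ[X] := ∏ j, (X - C (P j)) with hp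
  have hdeg : p.natDegree < d + 1 := by
    rw [hp, natDegree_prod_of_monic _ _ (fun j _ => monic_X_sub_C (P j))]
    simp only [natDegree_X_sub_C, sum_const, card_univ, Fintype.card_fin, smul_eq_mul, mul_one]
    omega
  refine ⟨fun i => p.coeff (i : ℕ), ?_, ?_⟩
  · intro i
    have := INTERP_coeff (X₀ : ℤ) (by positivity) P Finset.univ (fun j _ => hP j) (i : ℕ)
    rwa [card_univ, Fintype.card_fin] at this
  · intro t
    have h1 : ev (fun i : Fin (d + 1) => p.coeff (i : ℕ)) t = p.eval t := by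
      rw [eval_eq_sum_range' hdeg, ev, Finset.sum_range (fun i => p.coeff i * t ^ i)]
    rw [h1, hp, eval_prod]
    simp

end Pool.Agent.N718.GU
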