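import Pool.Agent.N718.GU.Stm
import Pool.Agent.Helper112.LS

/-!
# GU/LS: the additive large sieve in a window (helper368)
-/

set_option autoImplicit false

namespace Pool.Agent.N718.GU

open Finset

theorem LS_e_add (x y : ℝ) : e (x + y) = e x * e y := by
  unfold e
  rw [← Complex.exp_add]
  congr 1
  push_cast
  ring

theorem LS_e_norm (x : ℝ) : ‖e x‖ = 1 := by
  unfold e
  rw [show (2 * Real.pi * Complex.I * x : ℂ) = ((2 * Real.pi * x : ℝ) : ℂ) * Complex.I by
    push_cast; ring]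
  exact Complex.norm_exp_ofReal_mul_I _

theorem LS_e_ee (x : ℝ) : e x = Pool.Agent.Helper112.ee x := by
  unfold e Pool.Agent.Helper112.ee
  congr 1
  ring

/-- translation of the window -/
theorem LS_shift (F : ℤ → ℂ) (Y : ℕ) (z : ℤ) (α : ℝ) :
    S F Y z α = e (z * α) * ∑ n ∈ Icc 1 Y, F (z + n) * e ((n : ℝ) * α) := by
  unfold S
  rw [Finset.mul_sum]
  symm
  refine Finset.sum_bij (fun (n : ℕ) _ => z + (n : ℤ)) ?_ ?_ ?_ ?_
  · intro n hn
    rw [mem_Icc] at hn
    rw [mem_Ioc]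
    omega
  · intro a _ b _ h
    have : z + (a : ℤ) = z + b := h
    omega
  · intro y hy
    rw [mem_Ioc] at hy
    refine ⟨(y - z).toNat, ?_, ?_⟩
    · rw [mem_Icc]
      omega
    · show z + ((y - z).toNat : ℤ) = y
      omega
  · intro n _
    push_cast
    rw [add_mul, LS_e_add]
    ring

theorem t_LS : P_LS := by
  refine ⟨6, by norm_num, ?_⟩
  intro F hF Y Q z
  have h := Pool.Agent.Helper112.additive_large_sieve Y Q (fun n => F (z + n))
  have h1 : ∑ n ∈ Icc 1 Y, ‖F (z + (n : ℕ))‖ ^ 2 ≤ (Y : ℝ) := by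
    calc ∑ n ∈ Icc 1 Y, ‖F (z + (n : ℕ))‖ ^ 2 ≤ ∑ _n ∈ Icc 1 Y, (1 : ℝ) := by
          refine Finset.sum_le_sum fun n _ => ?_
          exact pow_le_one₀ (norm_nonneg _) (hF _)
      _ = Y := by simp
  refine le_trans (le_of_eq ?_) (h.trans ?_)
  · refine Finset.sum_congr rfl fun r _ => Finset.sum_congr rfl fun a _ => ?_
    rw [LS_shift, norm_mul, LS_e_norm, one_mul]
    congr 2
    refine Finset.sum_congr rfl fun n _ => ?_
    rw [LS_e_ee, mul_div_assoc]
  · refine mul_le_mul_of_nonneg_left h1 ?_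
    positivity

end Pool.Agent.N718.GU
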