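import Pool.Agent.N718.GU.Stm

set_option autoImplicit false

namespace Pool.Agent.N718.GU

open Finset

/-- a subset of `Fin (t+1)` from a bit and a subset of `Fin t` -/
def NONNEG_e (t : ℕ) (b : Bool × Finset (Fin t)) : Finset (Fin (t + 1)) :=
  if b.1 then insert 0 (b.2.map (Fin.succEmb t)) else b.2.map (Fin.succEmb t)

theorem NONNEG_e_bij (t : ℕ) : Function.Bijective (NONNEG_e t) := by
  have h0 : ∀ w : Finset (Fin t), (0 : Fin (t + 1)) ∉ w.map (Fin.succEmb t) := by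
    intro w hw
    rw [mem_map] at hw
    obtain ⟨i, _, hi⟩ := hw
    exact Fin.succ_ne_zero i hi
  have hs : ∀ (w : Finset (Fin t)) (i : Fin t), i.succ ∈ w.map (Fin.succEmb t) ↔ i ∈ w := by
    intro w i
    exact mem_map' (Fin.succEmb t)
  constructor
  · rintro ⟨b, w⟩ ⟨b', w'⟩ h
    have hz : (0 : Fin (t + 1)) ∈ NONNEG_e t (b, w) ↔ (0 : Fin (t + 1)) ∈ NONNEG_e t (b', w') := by rw [h]
    have hw : ∀ i : Fin t, i.succ ∈ NONNEG_e t (b, w) ↔ i.succ ∈ NONNEG_e t (b', w') := by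
      intro i
      rw [h]
    have hbb : b = b' := by
      cases b <;> cases b' <;> simp [NONNEG_e, h0] at hz ⊢
    subst hbb
    have hww : w = w' := by
      ext i
      have := hw i
      cases b <;> simpa [NONNEG_e, Fin.succ_ne_zero] using this
    rw [hww]
  · intro W
    by_cases hW : (0 : Fin (t + 1)) ∈ W
    · refine ⟨(true, univ.filter (fun i => i.succ ∈ W)), ?_⟩
      ext j
      refine Fin.cases ?_ (fun i => ?_) j
      · simp [NONNEG_e, hW]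
      · simp [NONNEG_e, Fin.succ_ne_zero]
    · refine ⟨(false, univ.filter (fun i => i.succ ∈ W)), ?_⟩
      ext j
      refine Fin.cases ?_ (fun i => ?_) j
      · simp [NONNEG_e, hW, Fin.succ_ne_zero]
      · simp [NONNEG_e]

theorem NONNEG_prod (t : ℕ) (φ : Finset (Fin (t + 1)) → ℝ) :
    ∏ ω, φ ω = (∏ w : Finset (Fin t), φ (w.map (Fin.succEmb t))) *
      ∏ w : Finset (Fin t), φ (insert 0 (w.map (Fin.succEmb t))) := by
  rw [← (NONNEG_e_bij t).prod_comp φ, Fintype.prod_prod_type, Fintype.prod_bool, mul_comm]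
  simp only [NONNEG_e, if_true, Bool.false_eq_true, if_false]

theorem NONNEG_pt1 (t : ℕ) (n a : ℤ) (h : Fin t → ℤ) (w : Finset (Fin t)) :
    pt n (Fin.cons a h : Fin (t + 1) → ℤ) (w.map (Fin.succEmb t)) = pt n h w := by
  simp [pt]

theorem NONNEG_pt2 (t : ℕ) (n a : ℤ) (h : Fin t → ℤ) (w : Finset (Fin t)) :
    pt n (Fin.cons a h : Fin (t + 1) → ℤ) (insert 0 (w.map (Fin.succEmb t))) = pt (n + a) h w := by
  have h0 : (0 : Fin (t + 1)) ∉ w.map (Fin.succEmb t) := by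
    intro hw
    rw [mem_map] at hw
    obtain ⟨i, _, hi⟩ := hw
    exact Fin.succ_ne_zero i hi
  rw [pt, sum_insert h0, pt]
  simp [add_assoc]

theorem NONNEG_sum (t : ℕ) (I : Finset ℤ) (G : (Fin (t + 1) → ℤ) → ℝ) :
    ∑ h ∈ Fintype.piFinset (fun _ : Fin (t + 1) => I), G h =
      ∑ h ∈ Fintype.piFinset (fun _ : Fin t => I), ∑ a ∈ I, G (Fin.cons a h : Fin (t + 1) → ℤ) := by
  rw [← sum_product']
  refine Finset.sum_bij' (i := fun h _ => (fun i : Fin t => h i.succ, h 0))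
    (j := fun x _ => (Fin.cons x.2 x.1 : Fin (t + 1) → ℤ)) ?_ ?_ ?_ ?_ ?_
  · intro h hh
    rw [Fintype.mem_piFinset] at hh
    rw [mem_product, Fintype.mem_piFinset]
    exact ⟨fun i => hh i.succ, hh 0⟩
  · intro x hx
    rw [mem_product, Fintype.mem_piFinset] at hx
    rw [Fintype.mem_piFinset]
    intro i
    refine Fin.cases ?_ (fun j => ?_) i
    · simpa using hx.2
    · simpa using hx.1 j
  · intro h _
    funext i
    refine Fin.cases ?_ (fun j => ?_) i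
    · simp
    · simp
  · rintro ⟨x, y⟩ _
    simp
  · intro h _
    congr 1
    funext i
    refine Fin.cases ?_ (fun j => ?_) i
    · simp
    · simp

theorem NONNEG_conv (x : ℕ) (A : ℤ → ℝ) (hA : ∀ n, ¬ (1 ≤ n ∧ n ≤ (x : ℤ)) → A n = 0) :
    ∑ a ∈ Icc (-(x : ℤ)) x, ∑ n ∈ Icc (1 : ℤ) x, A n * A (n + a) = (∑ n ∈ Icc (1 : ℤ) x, A n) ^ 2 := by
  rw [sum_comm, sq, sum_mul]
  refine sum_congr rfl (fun n hn => ?_)
  rw [← mul_sum]
  congr 1
  rw [mem_Icc] at hn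
  have h1 : ∑ a ∈ Icc (-(x : ℤ)) x, A (n + a) = ∑ m ∈ Icc (n + -(x : ℤ)) (n + x), A m := by
    have h2 := Finset.sum_map (Icc (-(x : ℤ)) x) (addLeftEmbedding n) A
    rw [Finset.map_add_left_Icc] at h2
    rw [h2]
    rfl
  rw [h1]
  symm
  refine sum_subset ?_ ?_
  · intro m hm
    rw [mem_Icc] at hm ⊢
    constructor <;> linarith [hm.1, hm.2, hn.1, hn.2]
  · intro m _ hm
    rw [mem_Icc] at hm
    exact hA m hm

theorem t_NONNEG : P_NONNEG := by
  intro s x hs g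
  obtain ⟨t, rfl⟩ : ∃ t, s = t + 1 := ⟨s - 1, by omega⟩
  classical
  rw [gowers, NONNEG_sum]
  refine sum_nonneg (fun h _ => ?_)
  set A : ℤ → ℝ := fun n => ∏ w : Finset (Fin t), if 1 ≤ pt n h w ∧ pt n h w ≤ x then g (pt n h w) else 0 with hAdef
  have hA : ∀ n, ¬ (1 ≤ n ∧ n ≤ (x : ℤ)) → A n = 0 := by
    intro n hn
    rw [hAdef]
    refine prod_eq_zero (mem_univ (∅ : Finset (Fin t))) ?_
    have : pt n h ∅ = n := by simp [pt]
    rw [this, if_neg hn]
  have hkey : ∑ a ∈ Icc (-(x : ℤ)) x, ∑ n ∈ Icc (1 : ℤ) x,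
      ∏ ω : Finset (Fin (t + 1)), (if 1 ≤ pt n (Fin.cons a h : Fin (t + 1) → ℤ) ω ∧
        pt n (Fin.cons a h : Fin (t + 1) → ℤ) ω ≤ x then g (pt n (Fin.cons a h : Fin (t + 1) → ℤ) ω) else 0) =
      (∑ n ∈ Icc (1 : ℤ) x, A n) ^ 2 := by
    rw [← NONNEG_conv x A hA]
    refine sum_congr rfl (fun a _ => sum_congr rfl (fun n _ => ?_))
    rw [NONNEG_prod]
    simp only [NONNEG_pt1, NONNEG_pt2, hAdef]
  refine le_of_le_of_eq (sq_nonneg (∑ n ∈ Icc (1 : ℤ) x, A n)) ?_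
  rw [← hkey]

end Pool.Agent.N718.GU
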