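import Pool.Agent.N718.GU.Stm

set_option autoImplicit false

namespace Pool.Agent.N718.GU

open Finset

theorem SHIFT_line (H U : ℕ) (w : ℤ) (hw : |w| ≤ U) :
    ((Icc (-(H : ℤ)) H).filter (fun t => t - w ∉ Icc (-(H : ℤ)) H)).card ≤ U := by
  rcases le_total 0 w with h | h
  · have hsub : (Icc (-(H : ℤ)) H).filter (fun t => t - w ∉ Icc (-(H : ℤ)) H) ⊆ Ico (-(H : ℤ)) (-(H : ℤ) + w) := by
      intro t ht
      simp only [mem_filter, mem_Icc, mem_Ico, not_and, not_le] at ht ⊢
      obtain ⟨⟨h1, h2⟩, h3⟩ := ht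
      refine ⟨h1, ?_⟩
      by_contra hcon
      have := h3 (by linarith)
      linarith
    refine (card_le_card hsub).trans ?_
    rw [Int.card_Ico]
    rw [abs_of_nonneg h] at hw
    omega
  · have hsub : (Icc (-(H : ℤ)) H).filter (fun t => t - w ∉ Icc (-(H : ℤ)) H) ⊆ Ioc ((H : ℤ) + w) H := by
      intro t ht
      simp only [mem_filter, mem_Icc, mem_Ioc, not_and, not_le] at ht ⊢
      obtain ⟨⟨h1, h2⟩, h3⟩ := ht
      refine ⟨?_, h2⟩
      have := h3 (by linarith)
      linarith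
    refine (card_le_card hsub).trans ?_
    rw [Int.card_Ioc]
    rw [abs_of_nonpos h] at hw
    omega

theorem SHIFT_card (d H U : ℕ) (w : Fin (d + 1) → ℤ) (hw : ∀ i, |w i| ≤ U) :
    ((box d H).filter (fun c => c - w ∉ box d H)).card ≤ (d + 1) * (U * (2 * H + 1) ^ d) := by
  classical
  set A : Fin (d + 1) → Finset (Fin (d + 1) → ℤ) := fun i => Fintype.piFinset (fun j =>
    if j = i then (Icc (-(H : ℤ)) H).filter (fun t => t - w i ∉ Icc (-(H : ℤ)) H) else Icc (-(H : ℤ)) H) with hA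
  have hsub : (box d H).filter (fun c => c - w ∉ box d H) ⊆ Finset.univ.biUnion A := by
    intro c hc
    rw [mem_filter] at hc
    obtain ⟨h1, h2⟩ := hc
    rw [box, Fintype.mem_piFinset] at h1 h2
    push Not at h2
    obtain ⟨i, hi⟩ := h2
    rw [mem_biUnion]
    refine ⟨i, mem_univ _, ?_⟩
    rw [hA, Fintype.mem_piFinset]
    intro j
    by_cases hj : j = i
    · subst hj
      rw [if_pos rfl, mem_filter]
      exact ⟨h1 j, hi⟩
    · rw [if_neg hj]
      exact h1 j
  have hcard : ∀ i, (A i).card ≤ U * (2 * H + 1) ^ d := by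
    intro i
    rw [hA, Fintype.card_piFinset, Fin.prod_univ_succAbove _ i]
    have h1 : ∀ j : Fin d, (if i.succAbove j = i then (Icc (-(H : ℤ)) H).filter (fun t => t - w i ∉ Icc (-(H : ℤ)) H)
        else Icc (-(H : ℤ)) H).card = 2 * H + 1 := by
      intro j
      rw [if_neg (Fin.succAbove_ne i j), Int.card_Icc]
      omega
    rw [Finset.prod_congr rfl (fun j _ => h1 j), if_pos rfl, prod_const, card_univ, Fintype.card_fin]
    exact Nat.mul_le_mul_right _ (SHIFT_line H U (w i) (hw i))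
  calc ((box d H).filter (fun c => c - w ∉ box d H)).card ≤ (Finset.univ.biUnion A).card := card_le_card hsub
    _ ≤ ∑ i : Fin (d + 1), (A i).card := card_biUnion_le
    _ ≤ ∑ i : Fin (d + 1), U * (2 * H + 1) ^ d := sum_le_sum (fun i _ => hcard i)
    _ = (d + 1) * (U * (2 * H + 1) ^ d) := by
        rw [sum_const, card_univ, Fintype.card_fin, smul_eq_mul]

theorem t_SHIFT : P_SHIFT := by
  intro d H U w hw G hG
  classical
  -- the translated box
  have h1 : ∑ c ∈ box d H, G (c + w) = ∑ c ∈ (box d H).map (addRightEmbedding w), G c := by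
    rw [sum_map]
    rfl
  set B := box d H with hB
  set B' := B.map (addRightEmbedding w) with hB'
  have hmem : ∀ c, c ∈ B' ↔ c - w ∈ B := by
    intro c
    rw [hB', mem_map]
    constructor
    · rintro ⟨a, ha, rfl⟩
      simpa using ha
    · intro h
      exact ⟨c - w, h, by simp⟩
  have hcardB : B'.card = B.card := card_map _
  have h2 : ∑ c ∈ B', G c - ∑ c ∈ B, G c = ∑ c ∈ B' \ B, G c - ∑ c ∈ B \ B', G c := by
    rw [← sum_sdiff_sub_sum_sdiff]
  have h3 : (B \ B').card ≤ (d + 1) * (U * (2 * H + 1) ^ d) := by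
    have : B \ B' = B.filter (fun c => c - w ∉ B) := by
      ext c
      rw [mem_sdiff, mem_filter, hmem]
    rw [this]
    exact SHIFT_card d H U w hw
  have h4 : (B' \ B).card = (B \ B').card := card_sdiff_comm hcardB
  have hn : ∀ s : Finset (Fin (d + 1) → ℤ), ‖∑ c ∈ s, G c‖ ≤ s.card := by
    intro s
    refine (norm_sum_le_of_le s (fun c _ => hG c)).trans ?_
    simp
  rw [h1, h2]
  have h5 := hn (B' \ B)
  have h6 := hn (B \ B')
  rw [h4] at h5
  have h3' : ((B \ B').card : ℝ) ≤ (d + 1) * (U * (2 * (H : ℝ) + 1) ^ d) := by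
    exact_mod_cast h3
  calc ‖∑ c ∈ B' \ B, G c - ∑ c ∈ B \ B', G c‖ ≤ ‖∑ c ∈ B' \ B, G c‖ + ‖∑ c ∈ B \ B', G c‖ := norm_sub_le _ _
    _ ≤ (B \ B').card + (B \ B').card := add_le_add h5 h6
    _ ≤ (d + 1) * (U * (2 * (H : ℝ) + 1) ^ d) + (d + 1) * (U * (2 * (H : ℝ) + 1) ^ d) := add_le_add h3' h3'
    _ = 2 * (d + 1) * U * (2 * (H : ℝ) + 1) ^ d := by ring

end Pool.Agent.N718.GU
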