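import Pool.Agent.N718.GU.Stm

set_option autoImplicit false

/-!
GU/SMALL: affine forms are rarely small (helper702)
-/

namespace Pool.Agent.N718.GU

open Finset

lemma small_card_Icc (x : ℕ) : (Icc (-(x : ℤ)) x).card = 2 * x + 1 := by
  rw [Int.card_Icc]; omega

/-- the fibres in the direction `i` -/
lemma small_fibre {D x : ℕ} (i : Fin D) (P : (Fin D → ℤ) → Prop) [DecidablePred P] (K : ℝ)
    (hK : ∀ w : Fin D → ℤ,
      (((Icc (-(x : ℤ)) x).filter (fun y => P (Function.update w i y))).card : ℝ) ≤ K) :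
    (((cube D x).filter P).card : ℝ) ≤ (2 * (x : ℝ) + 1) ^ (D - 1) * K := by
  classical
  set W : Finset (Fin D → ℤ) :=
    Fintype.piFinset (fun j => if j = i then {0} else Icc (-(x : ℤ)) x) with hW
  have hWc : W.card = (2 * x + 1) ^ (D - 1) := by
    rw [hW, Fintype.card_piFinset]
    rw [← Finset.mul_prod_erase _ _ (Finset.mem_univ i)]
    rw [if_pos rfl, Finset.card_singleton, one_mul]
    rw [Finset.prod_congr rfl (g := fun _ => 2 * x + 1)]
    · rw [Finset.prod_const, Finset.card_erase_of_mem (Finset.mem_univ i), Finset.card_univ,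
        Fintype.card_fin]
    · intro j hj
      rw [if_neg (Finset.ne_of_mem_erase hj), small_card_Icc]
  have hmaps : ∀ v ∈ (cube D x).filter P, Function.update v i 0 ∈ W := by
    intro v hv
    rw [Finset.mem_filter, cube, Fintype.mem_piFinset] at hv
    rw [hW, Fintype.mem_piFinset]
    intro j
    by_cases hj : j = i
    · subst hj; simp
    · rw [if_neg hj, Function.update_of_ne hj]; exact hv.1 j
  rw [Finset.card_eq_sum_card_fiberwise hmaps]
  push_cast
  calc ∑ w ∈ W, ((((cube D x).filter P).filter (fun v => Function.update v i 0 = w)).card : ℝ)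
      ≤ ∑ w ∈ W, K := by
        apply Finset.sum_le_sum
        intro w _
        refine le_trans ?_ (hK w)
        norm_cast
        apply Finset.card_le_card_of_injOn (fun v => v i)
        · intro v hv
          rw [Finset.mem_coe, Finset.mem_filter, Finset.mem_filter, cube,
            Fintype.mem_piFinset] at hv
          rw [Finset.mem_coe, Finset.mem_filter]
          refine ⟨hv.1.1 i, ?_⟩
          have : Function.update w i (v i) = v := by
            rw [← hv.2]; simp
          simp only [this]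
          exact hv.1.2
        · intro v hv v' hv' h
          rw [Finset.mem_coe, Finset.mem_filter] at hv hv'
          have h1 : Function.update w i (v i) = v := by
            rw [← hv.2]; simp
          have h2 : Function.update w i (v' i) = v' := by
            rw [← hv'.2]; simp
          simp only at h
          rw [← h1, ← h2, h]
    _ = (2 * (x : ℝ) + 1) ^ (D - 1) * K := by
        rw [Finset.sum_const, hWc, nsmul_eq_mul]
        push_cast
        ring

lemma small_aff_update {D : ℕ} (p : Fin (D + 1) → ℤ) (w : Fin D → ℤ) (i : Fin D) (y y' : ℤ) :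
    aff p (Function.update w i y) - aff p (Function.update w i y') = p i.succ * (y - y') := by
  unfold aff
  rw [← Finset.add_sum_erase _ _ (Finset.mem_univ i), ← Finset.add_sum_erase _ _ (Finset.mem_univ i)]
  have h : ∀ z : ℤ, ∑ j ∈ univ.erase i, p j.succ * Function.update w i z j =
      ∑ j ∈ univ.erase i, p j.succ * w j := by
    intro z
    apply Finset.sum_congr rfl
    intro j hj
    rw [Function.update_of_ne (Finset.ne_of_mem_erase hj)]
  rw [h y, h y', Function.update_self, Function.update_self]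
  ring

lemma small_card_near (T : Finset ℤ) (L : ℝ) (hL : 0 ≤ L)
    (h : ∀ y ∈ T, ∀ y' ∈ T, ((y - y' : ℤ) : ℝ) ≤ L) : (T.card : ℝ) ≤ L + 1 := by
  rcases T.eq_empty_or_nonempty with rfl | hT
  · simp; linarith
  · have hsub : T ⊆ Icc (T.min' hT) (T.min' hT + (⌊L⌋₊ : ℤ)) := by
      intro y hy
      rw [Finset.mem_Icc]
      refine ⟨Finset.min'_le _ _ hy, ?_⟩
      have h1 := h y hy _ (Finset.min'_mem T hT)
      have h0 : 0 ≤ y - T.min' hT := by
        have := Finset.min'_le _ _ hy
        omega
      have h2 : (y - T.min' hT).toNat ≤ ⌊L⌋₊ := by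
        apply Nat.le_floor
        have : (((y - T.min' hT).toNat : ℤ) : ℝ) = ((y - T.min' hT : ℤ) : ℝ) := by
          rw [Int.toNat_of_nonneg h0]
        have h3 : (((y - T.min' hT).toNat : ℕ) : ℝ) = ((y - T.min' hT : ℤ) : ℝ) := by
          rw [← this]; norm_cast
        rw [h3]; exact h1
      omega
    have hc := Finset.card_le_card hsub
    rw [Int.card_Icc] at hc
    have h4 : T.card ≤ ⌊L⌋₊ + 1 := by omega
    have h5 : (⌊L⌋₊ : ℝ) ≤ L := Nat.floor_le hL
    have h6 : (T.card : ℝ) ≤ (⌊L⌋₊ : ℝ) + 1 := by exact_mod_cast h4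
    linarith

theorem t_SMALL : P_SMALL := by
  intro D B ε hε
  refine ⟨ε / 2, by positivity, ⌈1 / ε⌉₊, ?_⟩
  intro x hx p _ ⟨i, hi⟩
  have hx' : 1 / ε ≤ (x : ℝ) := (Nat.le_ceil _).trans (by exact_mod_cast hx)
  have hx1 : 1 ≤ ε * x := by
    rw [div_le_iff₀ hε] at hx'
    linarith
  have hx0 : (0 : ℝ) ≤ x := Nat.cast_nonneg x
  have hfib : ∀ w : Fin D → ℤ, (((Icc (-(x : ℤ)) x).filter (fun y =>
      |(aff p (Function.update w i y) : ℝ)| ≤ ε / 2 * x)).card : ℝ) ≤ ε * (2 * (x : ℝ) + 1) := by
    intro w
    have h1 : (((Icc (-(x : ℤ)) x).filter (fun y =>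
        |(aff p (Function.update w i y) : ℝ)| ≤ ε / 2 * x)).card : ℝ) ≤ ε * x + 1 := by
      apply small_card_near _ _ (by positivity)
      intro y hy y' hy'
      rw [Finset.mem_filter] at hy hy'
      have h2 := small_aff_update p w i y y'
      have h3 : ((aff p (Function.update w i y) : ℝ) - (aff p (Function.update w i y') : ℝ)) =
          (p i.succ : ℝ) * ((y - y' : ℤ) : ℝ) := by
        exact_mod_cast h2
      have h4 : |(p i.succ : ℝ) * ((y - y' : ℤ) : ℝ)| ≤ ε * x := by
        rw [← h3]
        calc |(aff p (Function.update w i y) : ℝ) - (aff p (Function.update w i y') : ℝ)|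
            ≤ |(aff p (Function.update w i y) : ℝ)| + |(aff p (Function.update w i y') : ℝ)| :=
              abs_sub _ _
          _ ≤ ε / 2 * x + ε / 2 * x := add_le_add hy.2 hy'.2
          _ = ε * x := by ring
      rw [abs_mul] at h4
      have h5 : (1 : ℝ) ≤ |(p i.succ : ℝ)| := by
        have : (1 : ℤ) ≤ |p i.succ| := Int.one_le_abs hi
        exact_mod_cast this
      have h6 := le_abs_self (((y - y' : ℤ) : ℝ))
      nlinarith [abs_nonneg (((y - y' : ℤ) : ℝ))]
    nlinarith
  have h := small_fibre i (fun v => |(aff p v : ℝ)| ≤ ε / 2 * x) (ε * (2 * (x : ℝ) + 1)) hfib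
  have hD : D = (D - 1) + 1 := by
    have := i.2; omega
  calc (((cube D x).filter (fun v => |(aff p v : ℝ)| ≤ ε / 2 * x)).card : ℝ)
      ≤ (2 * (x : ℝ) + 1) ^ (D - 1) * (ε * (2 * (x : ℝ) + 1)) := h
    _ = ε * (2 * (x : ℝ) + 1) ^ ((D - 1) + 1) := by ring
    _ = ε * (2 * (x : ℝ) + 1) ^ D := by rw [← hD]

end Pool.Agent.N718.GU
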