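import Mathlib

set_option autoImplicit false

/-!
Project GU (helper718): for almost all polynomials `f` of degree at most `d` and height at most `H`, `H ≥ x^(3 k 2^s)`,
`k 2^s ≤ d + 1`, the functions `n ↦ λ(f(L_1(n))) F_2(f(L_2(n))) ... F_k(f(L_k(n)))`, `n ≤ x`, have small Gowers norms `U^s`.

Definitions and statements of the lemmas.
-/

namespace Pool.Agent.N718.GU

open Finset

/-- `e(t) = exp(2 π i t)` -/
noncomputable def e (t : ℝ) : ℂ := Complex.exp (2 * Real.pi * Complex.I * t)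

/-- the value at `P` of the polynomial with coefficients `c` -/
def ev {d : ℕ} (c : Fin (d + 1) → ℤ) (P : ℤ) : ℤ := ∑ i : Fin (d + 1), c i * P ^ (i : ℕ)

/-- the polynomials of degree at most `d` and height at most `H` -/
noncomputable def box (d H : ℕ) : Finset (Fin (d + 1) → ℤ) := Fintype.piFinset (fun _ => Icc (-(H : ℤ)) H)

/-- exponential sum over the window `(z, z + Y]` -/
noncomputable def S (F : ℤ → ℂ) (Y : ℕ) (z : ℤ) (α : ℝ) : ℂ := ∑ y ∈ Ioc z (z + (Y : ℤ)), F y * e ((y : ℝ) * α)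

/-- sum over the progression `m + q, m + 2 q, ..., m + A q` -/
noncomputable def V (F : ℤ → ℂ) (q A : ℕ) (m : ℤ) : ℂ := ∑ a ∈ Icc 1 A, F (m + (a : ℤ) * q)

/-- the numerators of the reduced fractions with denominator `r` in `[0, 1)` -/
noncomputable def red (r : ℕ) : Finset ℕ := (range r).filter (fun a => Nat.Coprime a r)

/-- the affine form on `ℤ^D` with the constant term `p 0` and the coefficients `p 1, ..., p D` -/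
def aff {D : ℕ} (p : Fin (D + 1) → ℤ) (v : Fin D → ℤ) : ℤ := p 0 + ∑ i : Fin D, p i.succ * v i

/-- the cube `[-x, x]^D` -/
noncomputable def cube (D x : ℕ) : Finset (Fin D → ℤ) := Fintype.piFinset (fun _ => Icc (-(x : ℤ)) x)

/-- COUNT: the number of polynomials with a given value at `P` -/
def P_COUNT : Prop := ∀ d H : ℕ, ∀ P : ℤ, 1 ≤ |P| → |P| ≤ H → ∀ m : ℤ,
  (((box d H).filter (fun c => ev c P = m)).card : ℝ) * |(P : ℝ)| ^ d ≤ (4 * (H : ℝ)) ^ d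

/-- SHIFT: translation of the box -/
def P_SHIFT : Prop := ∀ d H U : ℕ, ∀ w : Fin (d + 1) → ℤ, (∀ i, |w i| ≤ U) → ∀ G : (Fin (d + 1) → ℤ) → ℂ,
  (∀ c, ‖G c‖ ≤ 1) → ‖∑ c ∈ box d H, G (c + w) - ∑ c ∈ box d H, G c‖ ≤ 2 * (d + 1) * U * (2 * (H : ℝ) + 1) ^ d

/-- INTERP: a polynomial with given zeros and small coefficients -/
def P_INTERP : Prop := ∀ (d m X : ℕ) (P : Fin m → ℤ), m ≤ d → (∀ j, |P j| ≤ X) →
  ∃ w : Fin (d + 1) → ℤ, (∀ i, |w i| ≤ (1 + (X : ℤ)) ^ m) ∧ ∀ p : ℤ, ev w p = ∏ j, (p - P j)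

/-- VQ: short progressions and exponential sums in windows -/
def P_VQ : Prop := ∀ F : ℤ → ℂ, (∀ n, ‖F n‖ ≤ 1) → ∀ q Y M : ℕ, 1 ≤ q → q ≤ Y → q ≤ M →
  ∑ m ∈ Icc (-(M : ℤ)) M, ‖V F q (Y / q) m‖ ^ 2 ≤
    2 / (q : ℝ) ^ 2 * ∑ z ∈ Icc (-(2 * M : ℤ)) (2 * M), ∑ b ∈ range q, ‖S F Y z ((b : ℝ) / q)‖ ^ 2 + 8 * (2 * M + 1)

/-- FAREY: the fractions with denominator `q` -/
def P_FAREY : Prop := ∀ (F : ℤ → ℂ) (Y q : ℕ) (z : ℤ), 1 ≤ q →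
  ∑ b ∈ range q, ‖S F Y z ((b : ℝ) / q)‖ ^ 2 = ∑ r ∈ q.divisors, ∑ a ∈ red r, ‖S F Y z ((a : ℝ) / r)‖ ^ 2

/-- LS: the large sieve in a window -/
def P_LS : Prop := ∃ C : ℝ, 0 < C ∧ ∀ (F : ℤ → ℂ), (∀ n, ‖F n‖ ≤ 1) → ∀ (Y Q : ℕ) (z : ℤ),
  ∑ r ∈ Icc 1 Q, ∑ a ∈ red r, ‖S F Y z ((a : ℝ) / r)‖ ^ 2 ≤ C * ((Y : ℝ) + (Q : ℝ) ^ 2) * Y

/-- the exponential sums of `F` in almost all windows of every large length are small, for every fixed frequency -/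
def Unif (F : ℤ → ℂ) : Prop := ∀ ε : ℝ, 0 < ε → ∃ Y₀ : ℕ, ∀ Y : ℕ, Y₀ ≤ Y → ∀ M : ℕ, Y ≤ M → ∀ α : ℝ,
  ∑ z ∈ Icc (-(2 * M : ℤ)) (2 * M), ‖S F Y z α‖ ≤ ε * Y * M

/-- the Liouville function on the integers -/
noncomputable def lam (m : ℤ) : ℝ := if m = 0 then 0 else (-1) ^ ArithmeticFunction.cardFactors m.natAbs

/-- the Moebius function on the integers -/
noncomputable def mob (m : ℤ) : ℝ := (ArithmeticFunction.moebius m.natAbs : ℤ)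

/-- UNIF -/
def P_UNIF : Prop := Unif (fun m => (lam m : ℂ)) ∧ Unif (fun m => (mob m : ℂ))

/-- DIV: the values of a product of affine forms are rarely divisible by a large number -/
def P_DIV : Prop := ∀ D B n : ℕ, ∀ ε : ℝ, 0 < ε → ∃ R x₀ : ℕ, ∀ x : ℕ, x₀ ≤ x → ∀ p : Fin n → Fin (D + 1) → ℤ,
  (∀ j, p j ≠ 0) → (∀ j i, |p j i| ≤ B) → ∀ r : ℕ, R < r →
    (((cube D x).filter (fun v => ∏ j, aff (p j) v ≠ 0 ∧ (r : ℤ) ∣ ∏ j, aff (p j) v)).card : ℝ) ≤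
      ε * (2 * (x : ℝ) + 1) ^ D

/-- SMALL: an affine form is rarely small -/
def P_SMALL : Prop := ∀ D B : ℕ, ∀ ε : ℝ, 0 < ε → ∃ δ : ℝ, 0 < δ ∧ ∃ x₀ : ℕ, ∀ x : ℕ, x₀ ≤ x → ∀ p : Fin (D + 1) → ℤ,
  (∀ i, |p i| ≤ B) → (∃ i : Fin D, p i.succ ≠ 0) →
    (((cube D x).filter (fun v => |(aff p v : ℝ)| ≤ δ * x)).card : ℝ) ≤ ε * (2 * (x : ℝ) + 1) ^ D

/-- the point `n + ∑_{l ∈ ω} h_l` -/
def pt {s : ℕ} (n : ℤ) (h : Fin s → ℤ) (ω : Finset (Fin s)) : ℤ := n + ∑ l ∈ ω, h l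

open Classical in
/-- the `2^s`-th power of the Gowers norm `U^s` of `g 1_{[1, x]}`, not normalised -/
noncomputable def gowers (s x : ℕ) (g : ℤ → ℝ) : ℝ :=
  ∑ h ∈ Fintype.piFinset (fun _ : Fin s => Icc (-(x : ℤ)) x), ∑ n ∈ Icc (1 : ℤ) x,
    ∏ ω : Finset (Fin s), if 1 ≤ pt n h ω ∧ pt n h ω ≤ x then g (pt n h ω) else 0

/-- NONNEG -/
def P_NONNEG : Prop := ∀ s x : ℕ, 1 ≤ s → ∀ g : ℤ → ℝ, 0 ≤ gowers s x g

/-- GP: the main estimate -/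
def P_GP : Prop := ∀ F : ℤ → ℂ, (∀ n, ‖F n‖ ≤ 1) → Unif F → ∀ m D B d : ℕ, m ≤ d → ∀ ε : ℝ, 0 < ε → ∃ x₀ : ℕ,
  ∀ x : ℕ, x₀ ≤ x → ∀ H : ℕ, x ^ (3 * (m + 1)) ≤ H → ∀ (p₀ : Fin (D + 1) → ℤ) (p : Fin m → Fin (D + 1) → ℤ),
    (∀ i, |p₀ i| ≤ B) → (∀ j i, |p j i| ≤ B) → (∃ i : Fin D, p₀ i.succ ≠ 0) → (∀ j, p j ≠ p₀) →
    ∀ G : (Fin D → ℤ) → Fin m → ℤ → ℂ, (∀ v j n, ‖G v j n‖ ≤ 1) →
      ∑ v ∈ cube D x, ‖∑ c ∈ box d H, F (ev c (aff p₀ v)) * ∏ j, G v j (ev c (aff (p j) v))‖ ≤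
        ε * (2 * (x : ℝ) + 1) ^ D * (2 * (H : ℝ) + 1) ^ (d + 1)

end Pool.Agent.N718.GU
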