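import Pool.Agent.N718.GU.Stm
import Pool.Agent.TH823.MRS.Circ5

/-!
# GU/UNIF: exponential sums of the Liouville and Moebius functions in almost all short windows (helper368)
-/

set_option autoImplicit false

namespace Pool.Agent.N718.GU

open Finset
open Pool.Agent.TH823.MRS (ExpoSmall win_l1 win_eq liR_E mu_E mu_le)
open Pool.Agent.H807R2.Dav (ee norm_ee ee_add ee_int ee_pow ee_zero)
open Pool.Agent.H373R2.T7 (exI liR liR_norm)

/-- the windows are zero far to the left -/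
theorem UNIF_zero (h : ℕ → ℂ) (Y : ℕ) (z : ℤ) (hz : z + Y < 0) (α : ℝ) : S (exI h) Y z α = 0 := by
  unfold S
  refine sum_eq_zero fun y hy => ?_
  rw [mem_Ioc] at hy
  rw [exI, if_neg (by omega), zero_mul]

/-- the positive part, on arbitrary sets of windows -/
theorem UNIF_pos (h : ℕ → ℂ) (hE : ExpoSmall h) {ε : ℝ} (hε : 0 < ε) :
    ∃ Y₀ : ℕ, ∀ Y : ℕ, Y₀ ≤ Y → ∀ M : ℕ, Y ≤ M → ∀ α : ℝ, ∀ T : Finset ℤ,
      (∀ z ∈ T, z + (Y : ℤ) ≤ 3 * M) → ∑ z ∈ T, ‖S (exI h) Y z α‖ ≤ ε * Y * M := by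
  obtain ⟨W₀, X₀, h0⟩ := win_l1 h hE ε hε
  refine ⟨max W₀ X₀, fun Y hY M hM α T hT => ?_⟩
  have key := h0 M (((le_max_right _ _).trans hY).trans hM) Y ((le_max_left _ _).trans hY) hM α
  refine le_trans ?_ key
  have h1 : ∑ z ∈ T, ‖S (exI h) Y z α‖ = ∑ z ∈ T.filter (fun z => 0 ≤ z + (Y : ℤ)), ‖S (exI h) Y z α‖ := by
    rw [sum_filter]
    refine sum_congr rfl fun z _ => ?_
    split_ifs with h2
    · rfl
    · rw [UNIF_zero h Y z (by omega) α, norm_zero]
  rw [h1]
  have hinj : Set.InjOn (fun z : ℤ => (z + (Y : ℤ)).toNat)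
      ((T.filter (fun z => 0 ≤ z + (Y : ℤ)) : Finset ℤ) : Set ℤ) := by
    intro a ha b hb hab
    have ha' := (mem_filter.1 (mem_coe.1 ha)).2
    have hb' := (mem_filter.1 (mem_coe.1 hb)).2
    have : (a + (Y : ℤ)).toNat = (b + (Y : ℤ)).toNat := hab
    omega
  have h2 : ∀ z ∈ T.filter (fun z => 0 ≤ z + (Y : ℤ)), ‖S (exI h) Y z α‖ =
      (fun z : ℕ => ‖∑ n ∈ Icc 1 (3 * M), if n ≤ z ∧ z < n + Y then h n * ee ((n : ℝ) * α) else 0‖)
        ((z + (Y : ℤ)).toNat) := by
    intro z hz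
    rw [mem_filter] at hz
    have hz2 := hT z hz.1
    have h3 : ((z + (Y : ℤ)).toNat : ℤ) = z + Y := Int.toNat_of_nonneg hz.2
    show ‖S (exI h) Y z α‖ = ‖∑ n ∈ Icc 1 (3 * M), if n ≤ (z + (Y : ℤ)).toNat ∧
      (z + (Y : ℤ)).toNat < n + Y then h n * ee ((n : ℝ) * α) else 0‖
    rw [← win_eq h M Y (z + (Y : ℤ)).toNat (by omega) α, h3]
    have h4 : z + (Y : ℤ) - Y = z := by ring
    rw [h4]
    rfl
  rw [sum_congr rfl h2, ← sum_image (f := fun z : ℕ => ‖∑ n ∈ Icc 1 (3 * M), if n ≤ z ∧ z < n + Y then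
    h n * ee ((n : ℝ) * α) else 0‖) (g := fun z : ℤ => (z + (Y : ℤ)).toNat) hinj]
  refine sum_le_sum_of_subset_of_nonneg ?_ fun _ _ _ => norm_nonneg _
  intro w hw
  obtain ⟨z, hz, rfl⟩ := mem_image.1 hw
  rw [mem_filter] at hz
  have hz2 := hT z hz.1
  rw [mem_range]
  omega

/-- the reflection -/
theorem UNIF_refl (F : ℤ → ℂ) (Y : ℕ) (z : ℤ) (α : ℝ) :
    S (fun m => F (-m)) Y z α = S F Y (-z - Y - 1) (-α) := by
  unfold S
  refine sum_nbij' (fun y => -y) (fun y => -y) ?_ ?_ ?_ ?_ ?_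
  · intro y hy
    rw [mem_Ioc] at hy ⊢
    omega
  · intro y hy
    rw [mem_Ioc] at hy ⊢
    omega
  · intro y _
    exact neg_neg y
  · intro y _
    exact neg_neg y
  · intro y _
    congr 2
    push_cast
    ring

theorem UNIF_add {F G : ℤ → ℂ} (hF : Unif F) (hG : Unif G) : Unif (fun m => F m + G m) := by
  intro ε hε
  obtain ⟨Y₁, h1⟩ := hF (ε / 2) (by positivity)
  obtain ⟨Y₂, h2⟩ := hG (ε / 2) (by positivity)
  refine ⟨max Y₁ Y₂, fun Y hY M hM α => ?_⟩
  have h3 := h1 Y ((le_max_left _ _).trans hY) M hM α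
  have h4 := h2 Y ((le_max_right _ _).trans hY) M hM α
  have h5 : ∀ z ∈ Icc (-(2 * M : ℤ)) (2 * M), ‖S (fun m => F m + G m) Y z α‖ ≤
      ‖S F Y z α‖ + ‖S G Y z α‖ := by
    intro z _
    have : S (fun m => F m + G m) Y z α = S F Y z α + S G Y z α := by
      unfold S
      rw [← sum_add_distrib]
      exact sum_congr rfl fun y _ => add_mul _ _ _
    rw [this]
    exact norm_add_le _ _
  refine (sum_le_sum h5).trans ?_
  rw [sum_add_distrib]
  linarith

theorem UNIF_exI (h : ℕ → ℂ) (hE : ExpoSmall h) : Unif (exI h) := by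
  intro ε hε
  obtain ⟨Y₀, h0⟩ := UNIF_pos h hE hε
  refine ⟨Y₀, fun Y hY M hM α => h0 Y hY M hM α _ fun z hz => ?_⟩
  rw [mem_Icc] at hz
  omega

theorem UNIF_exI_neg (h : ℕ → ℂ) (hE : ExpoSmall h) : Unif (fun m => exI h (-m)) := by
  intro ε hε
  obtain ⟨Y₀, h0⟩ := UNIF_pos h hE hε
  refine ⟨Y₀, fun Y hY M hM α => ?_⟩
  have hinj : Set.InjOn (fun z : ℤ => -z - (Y : ℤ) - 1) ((Icc (-(2 * M : ℤ)) (2 * M) : Finset ℤ) : Set ℤ) := by
    intro a _ b _ hab
    have : -a - (Y : ℤ) - 1 = -b - (Y : ℤ) - 1 := hab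
    omega
  have h1 := h0 Y hY M hM (-α) ((Icc (-(2 * M : ℤ)) (2 * M)).image fun z : ℤ => -z - (Y : ℤ) - 1) (by
    intro w hw
    obtain ⟨z, hz, rfl⟩ := mem_image.1 hw
    rw [mem_Icc] at hz
    omega)
  rw [sum_image hinj] at h1
  refine le_trans (le_of_eq ?_) h1
  exact sum_congr rfl fun z _ => by rw [UNIF_refl]

theorem t_UNIF : P_UNIF := by
  constructor
  · have h1 : (fun m => ((lam m : ℝ) : ℂ)) = fun m => exI liR m + exI liR (-m) := by
      funext m
      unfold lam exI liR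
      rcases lt_trichotomy m 0 with h | h | h
      · rw [if_neg h.ne, if_neg (by omega), if_pos (by omega), zero_add]
        push_cast
        congr 2
        omega
      · rw [if_pos h, if_neg (by omega), if_neg (by omega), add_zero]
        simp
      · rw [if_neg h.ne', if_pos (by omega), if_neg (by omega), add_zero]
        push_cast
        congr 2
        omega
    rw [h1]
    exact UNIF_add (UNIF_exI _ liR_E) (UNIF_exI_neg _ liR_E)
  · have h1 : (fun m => ((mob m : ℝ) : ℂ)) = fun m =>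
        exI (fun n => ((ArithmeticFunction.moebius n : ℤ) : ℂ)) m +
        exI (fun n => ((ArithmeticFunction.moebius n : ℤ) : ℂ)) (-m) := by
      funext m
      unfold mob exI
      rcases lt_trichotomy m 0 with h | h | h
      · rw [if_neg (by omega), if_pos (by omega), zero_add]
        push_cast
        congr 3
        omega
      · rw [if_neg (by omega), if_neg (by omega), add_zero, h]
        simp
      · rw [if_pos (by omega), if_neg (by omega), add_zero]
        push_cast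
        congr 3
        omega
    rw [h1]
    exact UNIF_add (UNIF_exI _ mu_E) (UNIF_exI_neg _ mu_E)

end Pool.Agent.N718.GU
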