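import Pool.Agent.N718.GU.Stm

set_option autoImplicit false

namespace Pool.Agent.N718.GU

open Finset

theorem VQ_e_add (a b : ℝ) : e (a + b) = e a * e b := by
  rw [e, e, e, ← Complex.exp_add]
  congr 1
  push_cast
  ring

theorem VQ_e_int (n : ℤ) : e (n : ℝ) = 1 := by
  rw [e, Complex.exp_eq_one_iff]
  exact ⟨n, by push_cast; ring⟩

theorem VQ_e_nsmul (n : ℕ) (a : ℝ) : e ((n : ℝ) * a) = e a ^ n := by
  rw [e, e, ← Complex.exp_nat_mul]
  congr 1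
  push_cast
  ring

theorem VQ_e_neg (a : ℝ) : (starRingEnd ℂ) (e a) = e (-a) := by
  rw [e, e, ← Complex.exp_conj]
  congr 1
  simp only [map_mul, Complex.conj_ofReal, Complex.conj_I, map_ofNat]
  push_cast
  ring

theorem VQ_e_eq_one (t : ℝ) (h : e t = 1) : ∃ n : ℤ, t = n := by
  rw [e, Complex.exp_eq_one_iff] at h
  obtain ⟨n, hn⟩ := h
  refine ⟨n, ?_⟩
  have hne : (2 * Real.pi * Complex.I : ℂ) ≠ 0 := by
    simp [Real.pi_ne_zero]
  have : (2 * Real.pi * Complex.I : ℂ) * (t : ℂ) = (2 * Real.pi * Complex.I : ℂ) * (n : ℂ) := by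
    rw [hn]; ring
  have h2 := mul_left_cancel₀ hne this
  exact_mod_cast h2

/-- orthogonality -/
theorem VQ_orth (q : ℕ) (hq : 1 ≤ q) (k : ℤ) :
    ∑ b ∈ range q, e ((k : ℝ) * ((b : ℝ) / q)) = if (q : ℤ) ∣ k then (q : ℂ) else 0 := by
  have hq0 : (q : ℝ) ≠ 0 := by
    have : q ≠ 0 := by omega
    exact_mod_cast this
  have h1 : ∀ b : ℕ, e ((k : ℝ) * ((b : ℝ) / q)) = e ((k : ℝ) / q) ^ b := by
    intro b
    rw [← VQ_e_nsmul]
    congr 1
    ring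
  rw [sum_congr rfl (fun b _ => h1 b)]
  split_ifs with h
  · obtain ⟨l, rfl⟩ := h
    have h2 : e ((((q : ℤ) * l : ℤ) : ℝ) / q) = 1 := by
      have : ((((q : ℤ) * l : ℤ) : ℝ) / q) = (l : ℝ) := by
        push_cast
        field_simp
      rw [this, VQ_e_int]
    rw [h2]
    simp
  · have h2 : e ((k : ℝ) / q) ≠ 1 := by
      intro hcon
      obtain ⟨n, hn⟩ := VQ_e_eq_one _ hcon
      apply h
      refine ⟨n, ?_⟩
      have : (k : ℝ) = (q : ℝ) * n := by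
        rw [← hn]
        field_simp
      exact_mod_cast this
    have h3 : e ((k : ℝ) / q) ^ q = 1 := by
      rw [← VQ_e_nsmul]
      have : ((q : ℝ) * ((k : ℝ) / q)) = (k : ℝ) := by field_simp
      rw [this, VQ_e_int]
    rw [geom_sum_eq h2, h3]
    simp

theorem VQ_pars (q : ℕ) (hq : 1 ≤ q) (R : Finset ℤ) (hR : ∀ m ∈ R, ∀ m' ∈ R, (q : ℤ) ∣ m - m' → m = m') (u : ℤ → ℂ) :
    ∑ b ∈ range q, ‖∑ m ∈ R, u m * e ((m : ℝ) * ((b : ℝ) / q))‖ ^ 2 = q * ∑ m ∈ R, ‖u m‖ ^ 2 := by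
  have h1 : (((∑ b ∈ range q, ‖∑ m ∈ R, u m * e ((m : ℝ) * ((b : ℝ) / q))‖ ^ 2 : ℝ)) : ℂ) =
      ((q * ∑ m ∈ R, ‖u m‖ ^ 2 : ℝ) : ℂ) := by
    push_cast
    have h2 : ∀ b ∈ range q, ((‖∑ m ∈ R, u m * e ((m : ℝ) * ((b : ℝ) / q))‖ : ℝ) : ℂ) ^ 2 =
        ∑ m ∈ R, ∑ m' ∈ R, u m * (starRingEnd ℂ) (u m') * e (((m - m' : ℤ) : ℝ) * ((b : ℝ) / q)) := by
      intro b _
      rw [← Complex.mul_conj', map_sum, sum_mul_sum]
      refine sum_congr rfl (fun m _ => sum_congr rfl (fun m' _ => ?_))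
      rw [map_mul, VQ_e_neg]
      have : e (((m - m' : ℤ) : ℝ) * ((b : ℝ) / q)) = e ((m : ℝ) * ((b : ℝ) / q)) * e (-((m' : ℝ) * ((b : ℝ) / q))) := by
        rw [← VQ_e_add]
        congr 1
        push_cast
        ring
      rw [this]
      ring
    rw [sum_congr rfl h2, sum_comm, mul_sum]
    refine sum_congr rfl (fun m hm => ?_)
    rw [sum_comm]
    have h3 : ∀ m' ∈ R, ∑ b ∈ range q, u m * (starRingEnd ℂ) (u m') * e (((m - m' : ℤ) : ℝ) * ((b : ℝ) / q)) =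
        if m' = m then (q : ℂ) * ((‖u m‖ : ℝ) : ℂ) ^ 2 else 0 := by
      intro m' hm'
      rw [← mul_sum, VQ_orth q hq]
      split_ifs with h4 h5 h5
      · subst h5
        rw [Complex.mul_conj']
        ring
      · exact absurd (hR m hm m' hm' h4).symm h5
      · subst h5
        simp at h4
      · simp
    rw [sum_congr rfl h3, sum_ite_eq' R m, if_pos hm]
  exact_mod_cast h1

/-- the part of the window in a residue class -/
noncomputable def VQ_U (F : ℤ → ℂ) (q Y : ℕ) (z m : ℤ) : ℂ :=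
  ∑ y ∈ (Ioc z (z + (Y : ℤ))).filter (fun y => (q : ℤ) ∣ y - m), F y

theorem VQ_window (q : ℕ) (hq : 1 ≤ q) (z y : ℤ) : ∃ m ∈ Ioc z (z + (q : ℤ)), (q : ℤ) ∣ y - m := by
  have hq' : (0 : ℤ) < q := by exact_mod_cast hq
  refine ⟨z + 1 + (y - z - 1) % q, ?_, ?_⟩
  · rw [mem_Ioc]
    have h1 := Int.emod_nonneg (y - z - 1) hq'.ne'
    have h2 := Int.emod_lt_of_pos (y - z - 1) hq'
    constructor <;> linarith
  · have h3 : y - (z + 1 + (y - z - 1) % q) = (y - z - 1) - (y - z - 1) % q := by ring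
    rw [h3]
    exact Int.dvd_self_sub_emod

theorem VQ_inj (q : ℕ) (z : ℤ) : ∀ m ∈ Ioc z (z + (q : ℤ)), ∀ m' ∈ Ioc z (z + (q : ℤ)),
    (q : ℤ) ∣ m - m' → m = m' := by
  intro m hm m' hm' h
  rw [mem_Ioc] at hm hm'
  have : m - m' = 0 := by
    apply Int.eq_zero_of_abs_lt_dvd h
    rw [abs_lt]
    constructor <;> linarith [hm.1, hm.2, hm'.1, hm'.2]
  linarith

theorem VQ_S (F : ℤ → ℂ) (q Y : ℕ) (hq : 1 ≤ q) (z : ℤ) (b : ℕ) :
    S F Y z ((b : ℝ) / q) = ∑ m ∈ Ioc z (z + (q : ℤ)), VQ_U F q Y z m * e ((m : ℝ) * ((b : ℝ) / q)) := by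
  classical
  have hq0 : (q : ℝ) ≠ 0 := by
    have : q ≠ 0 := by omega
    exact_mod_cast this
  have h1 : ∀ m ∈ Ioc z (z + (q : ℤ)), VQ_U F q Y z m * e ((m : ℝ) * ((b : ℝ) / q)) =
      ∑ y ∈ Ioc z (z + (Y : ℤ)), if (q : ℤ) ∣ y - m then F y * e ((y : ℝ) * ((b : ℝ) / q)) else 0 := by
    intro m _
    rw [VQ_U, sum_mul, ← sum_filter]
    refine sum_congr rfl (fun y hy => ?_)
    rw [mem_filter] at hy
    obtain ⟨l, hl⟩ := hy.2
    congr 1
    have : (y : ℝ) * ((b : ℝ) / q) = (m : ℝ) * ((b : ℝ) / q) + ((l * b : ℤ) : ℝ) := by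
      have hy' : (y : ℝ) = m + q * l := by
        have : y = m + q * l := by linarith
        exact_mod_cast this
      rw [hy']
      push_cast
      field_simp
    rw [this, VQ_e_add, VQ_e_int, mul_one]
  rw [sum_congr rfl h1, sum_comm, S]
  refine sum_congr rfl (fun y _ => ?_)
  obtain ⟨m₀, hm₀, hd⟩ := VQ_window q hq z y
  rw [sum_eq_single m₀]
  · rw [if_pos hd]
  · intro m hm hne
    rw [if_neg]
    intro hcon
    apply hne
    apply VQ_inj q z m hm m₀ hm₀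
    have : m - m₀ = (y - m₀) - (y - m) := by ring
    rw [this]
    exact dvd_sub hd hcon
  · intro h
    exact absurd hm₀ h

theorem VQ_part1 (F : ℤ → ℂ) (q Y : ℕ) (hq : 1 ≤ q) (z : ℤ) :
    ∑ b ∈ range q, ‖S F Y z ((b : ℝ) / q)‖ ^ 2 = q * ∑ m ∈ Ioc z (z + (q : ℤ)), ‖VQ_U F q Y z m‖ ^ 2 := by
  rw [← VQ_pars q hq _ (VQ_inj q z)]
  refine sum_congr rfl (fun b _ => ?_)
  rw [VQ_S F q Y hq z b]

/-- `V` as a sum over a set of integers -/
theorem VQ_V (F : ℤ → ℂ) (q A : ℕ) (hq : 1 ≤ q) (m : ℤ) :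
    V F q A m = ∑ y ∈ (Ioc m (m + A * q)).filter (fun y => (q : ℤ) ∣ y - m), F y := by
  have hq' : (0 : ℤ) < q := by exact_mod_cast hq
  rw [V]
  refine sum_bij' (i := fun a _ => m + (a : ℤ) * q) (j := fun y _ => ((y - m) / q).toNat) ?_ ?_ ?_ ?_ ?_
  · intro a ha
    rw [mem_Icc] at ha
    rw [mem_filter, mem_Ioc]
    have h1 : (1 : ℤ) ≤ a := by exact_mod_cast ha.1
    have h2 : (a : ℤ) ≤ A := by exact_mod_cast ha.2
    refine ⟨⟨?_, ?_⟩, ⟨a, by ring⟩⟩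
    · nlinarith
    · have := mul_le_mul_of_nonneg_right h2 hq'.le
      linarith
  · intro y hy
    rw [mem_filter, mem_Ioc] at hy
    obtain ⟨⟨h1, h2⟩, l, hl⟩ := hy
    have h3 : (y - m) / q = l := by
      rw [hl]
      exact Int.mul_ediv_cancel_left _ hq'.ne'
    rw [h3, mem_Icc]
    have h4 : 0 < l := by
      by_contra hcon
      push Not at hcon
      have := mul_nonneg hq'.le (neg_nonneg.mpr hcon)
      linarith
    have h5 : l ≤ A := by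
      by_contra hcon
      push Not at hcon
      have h6 : (A : ℤ) + 1 ≤ l := hcon
      have := mul_le_mul_of_nonneg_left h6 hq'.le
      nlinarith
    constructor
    · omega
    · omega
  · intro a ha
    have h3 : (m + (a : ℤ) * q - m) / q = a := by
      have : m + (a : ℤ) * q - m = a * q := by ring
      rw [this]
      exact Int.mul_ediv_cancel _ hq'.ne'
    rw [h3]
    simp
  · intro y hy
    rw [mem_filter, mem_Ioc] at hy
    obtain ⟨⟨h1, h2⟩, l, hl⟩ := hy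
    have h3 : (y - m) / q = l := by
      rw [hl]
      exact Int.mul_ediv_cancel_left _ hq'.ne'
    have h4 : 0 < l := by
      by_contra hcon
      push Not at hcon
      have := mul_nonneg hq'.le (neg_nonneg.mpr hcon)
      linarith
    rw [h3, Int.toNat_of_nonneg h4.le]
    linarith
  · intro a _
    rfl

theorem VQ_close (F : ℤ → ℂ) (hF : ∀ n, ‖F n‖ ≤ 1) (q Y : ℕ) (hq : 1 ≤ q) (z m : ℤ) (hm : m ∈ Ioc z (z + (q : ℤ))) :
    ‖V F q (Y / q) m - VQ_U F q Y z m‖ ≤ 2 := by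
  classical
  have hq' : (0 : ℤ) < q := by exact_mod_cast hq
  rw [mem_Ioc] at hm
  rw [VQ_V F q _ hq, VQ_U]
  set s := (Ioc m (m + ((Y / q : ℕ) : ℤ) * q)).filter (fun y => (q : ℤ) ∣ y - m) with hs
  set t := (Ioc z (z + (Y : ℤ))).filter (fun y => (q : ℤ) ∣ y - m) with ht
  have hYq : ((Y / q : ℕ) : ℤ) * q ≤ Y := by exact_mod_cast Nat.div_mul_le_self Y q
  have hYq2 : (Y : ℤ) < ((Y / q : ℕ) : ℤ) * q + q := by
    have := Nat.lt_div_mul_add (a := Y) (b := q) (by omega)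
    exact_mod_cast this
  have h1 : ∑ y ∈ s, F y - ∑ y ∈ t, F y = ∑ y ∈ s \ t, F y - ∑ y ∈ t \ s, F y := by
    rw [← sum_sdiff_sub_sum_sdiff]
  have hst : s \ t ⊆ {m + ((Y / q : ℕ) : ℤ) * q} := by
    intro y hy
    rw [mem_sdiff, hs, ht, mem_filter, mem_filter, mem_Ioc, mem_Ioc] at hy
    obtain ⟨⟨⟨h2, h3⟩, h4⟩, h5⟩ := hy
    rw [mem_singleton]
    have h6 : z + Y < y := by
      by_contra hcon
      push Not at hcon
      exact h5 ⟨⟨by linarith, hcon⟩, h4⟩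
    have h7 : (q : ℤ) ∣ y - (m + ((Y / q : ℕ) : ℤ) * q) := by
      have : y - (m + ((Y / q : ℕ) : ℤ) * q) = (y - m) - ((Y / q : ℕ) : ℤ) * q := by ring
      rw [this]
      exact dvd_sub h4 (dvd_mul_left _ _)
    have h8 : y - (m + ((Y / q : ℕ) : ℤ) * q) = 0 := by
      apply Int.eq_zero_of_abs_lt_dvd h7
      rw [abs_lt]
      constructor <;> linarith
    linarith
  have hts : t \ s ⊆ {m} := by
    intro y hy
    rw [mem_sdiff, hs, ht, mem_filter, mem_filter, mem_Ioc, mem_Ioc] at hy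
    obtain ⟨⟨⟨h2, h3⟩, h4⟩, h5⟩ := hy
    rw [mem_singleton]
    have h6 : y ≤ m := by
      by_contra hcon
      push Not at hcon
      apply h5
      refine ⟨⟨hcon, ?_⟩, h4⟩
      by_contra hcon2
      push Not at hcon2
      obtain ⟨l, hl⟩ := h4
      have h7 : ((Y / q : ℕ) : ℤ) < l := by
        by_contra hcon3
        push Not at hcon3
        have := mul_le_mul_of_nonneg_left hcon3 hq'.le
        linarith
      have h8 : ((Y / q : ℕ) : ℤ) + 1 ≤ l := h7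
      have := mul_le_mul_of_nonneg_left h8 hq'.le
      nlinarith
    have h8 : y - m = 0 := by
      apply Int.eq_zero_of_abs_lt_dvd h4
      rw [abs_lt]
      constructor <;> linarith
    linarith
  have hn : ∀ (u : Finset ℤ) (a : ℤ), u ⊆ {a} → ‖∑ y ∈ u, F y‖ ≤ 1 := by
    intro u a hu
    refine (norm_sum_le_of_le u (fun c _ => hF c)).trans ?_
    rw [sum_const, nsmul_eq_mul, mul_one]
    have := card_le_card hu
    rw [card_singleton] at this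
    exact_mod_cast this
  rw [h1]
  calc ‖∑ y ∈ s \ t, F y - ∑ y ∈ t \ s, F y‖ ≤ ‖∑ y ∈ s \ t, F y‖ + ‖∑ y ∈ t \ s, F y‖ := norm_sub_le _ _
    _ ≤ 1 + 1 := add_le_add (hn _ _ hst) (hn _ _ hts)
    _ = 2 := by norm_num

theorem VQ_sq (F : ℤ → ℂ) (hF : ∀ n, ‖F n‖ ≤ 1) (q Y : ℕ) (hq : 1 ≤ q) (z m : ℤ) (hm : m ∈ Ioc z (z + (q : ℤ))) :
    ‖V F q (Y / q) m‖ ^ 2 ≤ 2 * ‖VQ_U F q Y z m‖ ^ 2 + 8 := by
  have h1 := VQ_close F hF q Y hq z m hm
  have h2 : ‖V F q (Y / q) m‖ ≤ ‖VQ_U F q Y z m‖ + 2 := by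
    have := norm_le_norm_add_norm_sub' (V F q (Y / q) m) (VQ_U F q Y z m)
    linarith
  have h3 : 0 ≤ ‖VQ_U F q Y z m‖ := norm_nonneg _
  have h4 : 0 ≤ ‖V F q (Y / q) m‖ := norm_nonneg _
  nlinarith [sq_nonneg (‖VQ_U F q Y z m‖ - 2)]

theorem t_VQ : P_VQ := by
  intro F hF q Y M hq _ hM
  classical
  have hq' : (0 : ℤ) < q := by exact_mod_cast hq
  have hqr : (0 : ℝ) < q := by exact_mod_cast hq
  have hM' : (q : ℤ) ≤ M := by exact_mod_cast hM
  -- every m is covered q times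
  have h1 : ∀ m ∈ Icc (-(M : ℤ)) M, (q : ℝ) * ‖V F q (Y / q) m‖ ^ 2 =
      ∑ z ∈ Icc (-(2 * M : ℤ)) (2 * M), if m ∈ Ioc z (z + (q : ℤ)) then ‖V F q (Y / q) m‖ ^ 2 else 0 := by
    intro m hm
    rw [mem_Icc] at hm
    rw [← sum_filter, sum_const, nsmul_eq_mul]
    congr 1
    have : (Icc (-(2 * M : ℤ)) (2 * M)).filter (fun z => m ∈ Ioc z (z + (q : ℤ))) = Ico (m - q) m := by
      ext z
      simp only [mem_filter, mem_Icc, mem_Ioc, mem_Ico]
      constructor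
      · rintro ⟨_, h2, h3⟩
        constructor <;> linarith
      · rintro ⟨h2, h3⟩
        refine ⟨⟨?_, ?_⟩, ?_, ?_⟩ <;> linarith [hm.1, hm.2]
    rw [this, Int.card_Ico]
    have : (m - (m - q)).toNat = q := by
      have h4 : m - (m - q) = (q : ℤ) := by ring
      rw [h4]
      exact Int.toNat_natCast q
    rw [this]
  have h2 : (q : ℝ) * ∑ m ∈ Icc (-(M : ℤ)) M, ‖V F q (Y / q) m‖ ^ 2 ≤
      2 * ∑ z ∈ Icc (-(2 * M : ℤ)) (2 * M), ∑ m ∈ Ioc z (z + (q : ℤ)), ‖VQ_U F q Y z m‖ ^ 2 +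
        8 * (q * (2 * M + 1)) := by
    have h3 : ∀ m ∈ Icc (-(M : ℤ)) M, (q : ℝ) * ‖V F q (Y / q) m‖ ^ 2 ≤
        2 * (∑ z ∈ Icc (-(2 * M : ℤ)) (2 * M), if m ∈ Ioc z (z + (q : ℤ)) then ‖VQ_U F q Y z m‖ ^ 2 else 0) + 8 * q := by
      intro m hm
      have hcount := h1 m hm
      rw [hcount]
      have h4 : ∑ z ∈ Icc (-(2 * M : ℤ)) (2 * M), (if m ∈ Ioc z (z + (q : ℤ)) then (8 : ℝ) else 0) = 8 * q := by
        rw [mem_Icc] at hm
        rw [← sum_filter, sum_const, nsmul_eq_mul]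
        have : (Icc (-(2 * M : ℤ)) (2 * M)).filter (fun z => m ∈ Ioc z (z + (q : ℤ))) = Ico (m - q) m := by
          ext z
          simp only [mem_filter, mem_Icc, mem_Ioc, mem_Ico]
          constructor
          · rintro ⟨_, h2, h3⟩
            constructor <;> linarith
          · rintro ⟨h2, h3⟩
            refine ⟨⟨?_, ?_⟩, ?_, ?_⟩ <;> linarith [hm.1, hm.2]
        rw [this, Int.card_Ico]
        have : (m - (m - q)).toNat = q := by
          have h4 : m - (m - q) = (q : ℤ) := by ring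
          rw [h4]
          exact Int.toNat_natCast q
        rw [this]
        ring
      rw [← h4, mul_sum, ← sum_add_distrib]
      refine sum_le_sum (fun z _ => ?_)
      split_ifs with h5
      · exact VQ_sq F hF q Y hq z m h5
      · simp
    calc (q : ℝ) * ∑ m ∈ Icc (-(M : ℤ)) M, ‖V F q (Y / q) m‖ ^ 2
        = ∑ m ∈ Icc (-(M : ℤ)) M, (q : ℝ) * ‖V F q (Y / q) m‖ ^ 2 := by rw [mul_sum]
      _ ≤ ∑ m ∈ Icc (-(M : ℤ)) M, (2 * (∑ z ∈ Icc (-(2 * M : ℤ)) (2 * M),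
            if m ∈ Ioc z (z + (q : ℤ)) then ‖VQ_U F q Y z m‖ ^ 2 else 0) + 8 * q) := sum_le_sum h3
      _ = 2 * ∑ z ∈ Icc (-(2 * M : ℤ)) (2 * M), ∑ m ∈ Icc (-(M : ℤ)) M,
            (if m ∈ Ioc z (z + (q : ℤ)) then ‖VQ_U F q Y z m‖ ^ 2 else 0) + 8 * (q * (2 * M + 1)) := by
          rw [sum_add_distrib, ← mul_sum, sum_comm, sum_const, nsmul_eq_mul, Int.card_Icc]
          have : (((M : ℤ) + 1 - -(M : ℤ)).toNat : ℝ) = 2 * M + 1 := by
            have h6 : ((M : ℤ) + 1 - -(M : ℤ)).toNat = 2 * M + 1 := by omega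
            rw [h6]
            push_cast
            ring
          rw [this]
          ring
      _ ≤ 2 * ∑ z ∈ Icc (-(2 * M : ℤ)) (2 * M), ∑ m ∈ Ioc z (z + (q : ℤ)), ‖VQ_U F q Y z m‖ ^ 2 +
            8 * (q * (2 * M + 1)) := by
          have : ∑ z ∈ Icc (-(2 * M : ℤ)) (2 * M), ∑ m ∈ Icc (-(M : ℤ)) M,
              (if m ∈ Ioc z (z + (q : ℤ)) then ‖VQ_U F q Y z m‖ ^ 2 else 0) ≤
              ∑ z ∈ Icc (-(2 * M : ℤ)) (2 * M), ∑ m ∈ Ioc z (z + (q : ℤ)), ‖VQ_U F q Y z m‖ ^ 2 := by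
            refine sum_le_sum (fun z _ => ?_)
            rw [← sum_filter]
            refine sum_le_sum_of_subset_of_nonneg ?_ (fun i _ _ => by positivity)
            intro m hm
            rw [mem_filter] at hm
            exact hm.2
          linarith
  have h3 : ∑ z ∈ Icc (-(2 * M : ℤ)) (2 * M), ∑ b ∈ range q, ‖S F Y z ((b : ℝ) / q)‖ ^ 2 =
      q * ∑ z ∈ Icc (-(2 * M : ℤ)) (2 * M), ∑ m ∈ Ioc z (z + (q : ℤ)), ‖VQ_U F q Y z m‖ ^ 2 := by
    rw [mul_sum]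
    exact sum_congr rfl (fun z _ => VQ_part1 F q Y hq z)
  rw [h3]
  set W := ∑ z ∈ Icc (-(2 * M : ℤ)) (2 * M), ∑ m ∈ Ioc z (z + (q : ℤ)), ‖VQ_U F q Y z m‖ ^ 2 with hW
  have h4 : 2 / (q : ℝ) ^ 2 * (q * W) = 2 / q * W := by
    field_simp
  rw [h4]
  have h5 : ∑ m ∈ Icc (-(M : ℤ)) M, ‖V F q (Y / q) m‖ ^ 2 ≤ (2 * W + 8 * (q * (2 * M + 1))) / q := by
    rw [le_div_iff₀ hqr, mul_comm]
    exact h2
  refine h5.trans (le_of_eq ?_)
  field_simp

end Pool.Agent.N718.GU
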